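import Mathlib

/-!
# Lattice points in dilates of a convex body, thickened
-/

set_option autoImplicit false

namespace Pool.Agent.Y196.Sp

open MeasureTheory Pointwise

/-- the real point of an exponent -/
def rpt {n : ℕ} (a : Fin n →₀ ℕ) : Fin n → ℝ := fun l => (a l : ℝ)

theorem rpt_inj {n : ℕ} : Function.Injective (rpt (n := n)) := by
  intro a b h
  ext l
  have h1 : (a l : ℝ) = (b l : ℝ) := congrFun h l
  exact_mod_cast h1

/-- the unit cube at a lattice point -/
def cube {n : ℕ} (a : Fin n →₀ ℕ) : Set (Fin n → ℝ) :=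
  Set.pi Set.univ fun l => Set.Ico (a l : ℝ) ((a l : ℝ) + 1)

theorem volume_cube {n : ℕ} (a : Fin n →₀ ℕ) : volume (cube a) = 1 := by
  unfold cube
  rw [Real.volume_pi_Ico]
  simp

theorem measurableSet_cube {n : ℕ} (a : Fin n →₀ ℕ) : MeasurableSet (cube a) :=
  MeasurableSet.univ_pi fun _ => measurableSet_Ico

theorem cube_disjoint {n : ℕ} {a b : Fin n →₀ ℕ} (h : a ≠ b) : Disjoint (cube a) (cube b) := by
  rw [Set.disjoint_left]
  intro x hx hy
  apply h
  ext l
  have h1 := hx l (Set.mem_univ l)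
  have h2 := hy l (Set.mem_univ l)
  have h3 : (a l : ℝ) < b l + 1 := lt_of_le_of_lt h1.1 h2.2
  have h4 : (b l : ℝ) < a l + 1 := lt_of_le_of_lt h2.1 h1.2
  have h5 : a l < b l + 1 := by exact_mod_cast h3
  have h6 : b l < a l + 1 := by exact_mod_cast h4
  omega

/-- number of lattice points -/
theorem card_le {n : ℕ} {P : Set (Fin n → ℝ)} (hP : IsCompact P) {l : ℕ} (hl : 1 ≤ l) (c : ℕ)
    (T : Finset (Fin n →₀ ℕ))
    (hT : ∀ a ∈ T, rpt a ∈ (l : ℝ) • P + Metric.closedBall (0 : Fin n → ℝ) c) :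
    (T.card : ℝ) ≤ (l : ℝ) ^ n * (volume (Metric.cthickening (((c : ℝ) + 1) / l) P)).toReal := by
  classical
  have hl0 : (0 : ℝ) < l := by exact_mod_cast hl
  have hsub : (⋃ a ∈ T, cube a) ⊆ (l : ℝ) • Metric.cthickening (((c : ℝ) + 1) / l) P := by
    intro x hx
    simp only [Set.mem_iUnion] at hx
    obtain ⟨a, ha, hxa⟩ := hx
    obtain ⟨y, hy, e, he, hye⟩ := Set.mem_add.1 (hT a ha)
    obtain ⟨q, hq, rfl⟩ := Set.mem_smul_set.1 hy
    refine Set.mem_smul_set.2 ⟨(l : ℝ)⁻¹ • x, ?_, ?_⟩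
    · refine Metric.mem_cthickening_of_dist_le _ q _ _ hq ?_
      rw [dist_eq_norm]
      have h1 : (l : ℝ)⁻¹ • x - q = (l : ℝ)⁻¹ • (x - (l : ℝ) • q) := by
        rw [smul_sub, smul_smul, inv_mul_cancel₀ hl0.ne', one_smul]
      rw [h1, norm_smul, norm_inv, Real.norm_of_nonneg hl0.le, inv_mul_eq_div]
      refine div_le_div_of_nonneg_right ?_ hl0.le
      have h2 : x - (l : ℝ) • q = e + (x - rpt a) := by
        rw [← hye]
        abel
      rw [h2]
      refine (norm_add_le _ _).trans (add_le_add ?_ ?_)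
      · rwa [mem_closedBall_zero_iff] at he
      · rw [pi_norm_le_iff_of_nonneg zero_le_one]
        intro i
        have h3 := hxa i (Set.mem_univ i)
        rw [Pi.sub_apply, Real.norm_eq_abs, abs_le]
        simp only [rpt]
        constructor
        · linarith [h3.1]
        · linarith [h3.2]
    · rw [smul_smul, mul_inv_cancel₀ hl0.ne', one_smul]
  have hvol : volume (⋃ a ∈ T, cube a) = T.card := by
    rw [measure_biUnion_finset]
    · rw [Finset.sum_congr rfl fun a _ => volume_cube a, Finset.sum_const, nsmul_eq_mul, mul_one]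
    · intro a _ b _ hab
      exact cube_disjoint hab
    · intro a _
      exact measurableSet_cube a
  have h1 := measure_mono (μ := (volume : Measure (Fin n → ℝ))) hsub
  rw [hvol, Measure.addHaar_smul, Module.finrank_fin_fun] at h1
  have hfin : volume (Metric.cthickening (((c : ℝ) + 1) / l) P) ≠ ⊤ :=
    (hP.isBounded.cthickening).measure_lt_top.ne
  have h2 := ENNReal.toReal_mono (ENNReal.mul_ne_top ENNReal.ofReal_ne_top hfin) h1
  rw [ENNReal.toReal_natCast, ENNReal.toReal_mul, ENNReal.toReal_ofReal (abs_nonneg _),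
    abs_of_nonneg (pow_nonneg hl0.le _)] at h2
  exact h2

/-- the set of the lattice points -/
def lat {n : ℕ} (P : Set (Fin n → ℝ)) (l c : ℕ) : Set (Fin n →₀ ℕ) :=
  {a | rpt a ∈ (l : ℝ) • P + Metric.closedBall (0 : Fin n → ℝ) c}

theorem lat_finite {n : ℕ} {P : Set (Fin n → ℝ)} (hP : IsCompact P) {l : ℕ} (hl : 1 ≤ l) (c : ℕ) :
    (lat P l c).Finite := by
  by_contra hinf
  obtain ⟨m, hm⟩ := exists_nat_gt
    ((l : ℝ) ^ n * (volume (Metric.cthickening (((c : ℝ) + 1) / l) P)).toReal)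
  obtain ⟨T, hT, hc⟩ := (show (lat P l c).Infinite from hinf).exists_subset_card_eq m
  have h1 := card_le hP hl c T fun a ha => hT ha
  rw [hc] at h1
  linarith

theorem lat_ncard {n : ℕ} {P : Set (Fin n → ℝ)} (hP : IsCompact P) {l : ℕ} (hl : 1 ≤ l) (c : ℕ) :
    ((lat P l c).ncard : ℝ) ≤
      (l : ℝ) ^ n * (volume (Metric.cthickening (((c : ℝ) + 1) / l) P)).toReal := by
  have hf := lat_finite hP hl c
  rw [Set.ncard_eq_toFinset_card _ hf]
  exact card_le hP hl c _ fun a ha => by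
    rw [Set.Finite.mem_toFinset] at ha
    exact ha

/-- the asymptotic step -/
theorem asym_sp {n : ℕ} {P : Set (Fin n → ℝ)} (hP : IsCompact P) {M c : ℕ}
    (h : ∀ l : ℕ, 1 ≤ l → M * (l + (n + 1)).choose (n + 1) ≤ (l + c + 1) * (lat P l c).ncard) :
    (M : ℝ) ≤ (n + 1).factorial * (volume P).toReal := by
  set V : ℝ → ℝ := fun r => (volume (Metric.cthickening r P)).toReal with hV
  have h1 : ∀ l : ℕ, 1 ≤ l → (M : ℝ) ≤ (n + 1).factorial *
      ((1 + (c : ℝ) * (1 / ((l : ℝ) + 1))) * V (((c : ℝ) + 1) / l)) := by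
    intro l hl
    have hl0 : (0 : ℝ) < l := by exact_mod_cast hl
    have h2 : M * (l + 1) ^ (n + 1) ≤ (n + 1).factorial * ((l + c + 1) * (lat P l c).ncard) := by
      calc M * (l + 1) ^ (n + 1) ≤ M * (l + 1).ascFactorial (n + 1) :=
            Nat.mul_le_mul_left _ (Nat.pow_succ_le_ascFactorial _ _)
        _ = (n + 1).factorial * (M * (l + (n + 1)).choose (n + 1)) := by
            rw [Nat.ascFactorial_eq_factorial_mul_choose]; ring
        _ ≤ _ := Nat.mul_le_mul_left _ (h l hl)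
    have h3 : (M : ℝ) * ((l : ℝ) + 1) ^ (n + 1) ≤
        (n + 1).factorial * (((l : ℝ) + c + 1) * (lat P l c).ncard) := by exact_mod_cast h2
    have h4 : ((lat P l c).ncard : ℝ) ≤ ((l : ℝ) + 1) ^ n * V (((c : ℝ) + 1) / l) := by
      refine (lat_ncard hP hl c).trans ?_
      refine mul_le_mul_of_nonneg_right ?_ ENNReal.toReal_nonneg
      exact pow_le_pow_left₀ hl0.le (by linarith) n
    have h5 : (M : ℝ) * ((l : ℝ) + 1) ^ (n + 1) ≤
        ((n + 1).factorial * ((1 + (c : ℝ) * (1 / ((l : ℝ) + 1))) * V (((c : ℝ) + 1) / l))) *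
          ((l : ℝ) + 1) ^ (n + 1) := by
      have e1 : ((1 : ℝ) + (c : ℝ) * (1 / ((l : ℝ) + 1))) = ((l : ℝ) + c + 1) / ((l : ℝ) + 1) := by
        field_simp
        ring
      have e2 : ((n + 1).factorial * ((1 + (c : ℝ) * (1 / ((l : ℝ) + 1))) *
          V (((c : ℝ) + 1) / l))) * ((l : ℝ) + 1) ^ (n + 1) =
          (n + 1).factorial * (((l : ℝ) + c + 1) * (((l : ℝ) + 1) ^ n * V (((c : ℝ) + 1) / l))) := by
        rw [e1, pow_succ]
        field_simp
      rw [e2]
      refine h3.trans (mul_le_mul_of_nonneg_left (mul_le_mul_of_nonneg_left h4 ?_) ?_)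
      · positivity
      · positivity
    exact le_of_mul_le_mul_right h5 (by positivity)
  have hlim : Filter.Tendsto V (nhds 0) (nhds (volume P).toReal) := by
    have h2 := tendsto_measure_cthickening_of_isCompact (μ := (volume : Measure (Fin n → ℝ))) hP
    exact (ENNReal.tendsto_toReal hP.measure_lt_top.ne).comp h2
  have hr : Filter.Tendsto (fun l : ℕ => ((c : ℝ) + 1) / l) Filter.atTop (nhds 0) :=
    tendsto_const_div_atTop_nhds_zero_nat _
  have h6 := tendsto_one_div_add_atTop_nhds_zero_nat (𝕜 := ℝ)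
  have h7 : Filter.Tendsto (fun l : ℕ => ((n + 1).factorial : ℝ) *
      ((1 + (c : ℝ) * (1 / ((l : ℝ) + 1))) * V (((c : ℝ) + 1) / l))) Filter.atTop
      (nhds (((n + 1).factorial : ℝ) * ((1 + (c : ℝ) * 0) * (volume P).toReal))) :=
    ((tendsto_const_nhds.add (tendsto_const_nhds.mul h6)).mul (hlim.comp hr)).const_mul _
  rw [mul_zero, add_zero, one_mul] at h7
  refine ge_of_tendsto h7 ?_
  filter_upwards [Filter.eventually_ge_atTop 1] with l hl
  exact h1 l hl

end Pool.Agent.Y196.Sp
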