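import Mathlib
import Pool.Agent.TH314.PD.LI

/-!
# Products of equations with an invertible Jacobian, with further factors

The same as `Pool.Agent.TH314.PD.li`; the product with exponent `a` may be multiplied by a polynomial
`m a` which does not vanish at the point.
-/

set_option autoImplicit false

namespace Pool.Agent.Y196.Sp

open MvPolynomial Pool.Agent.TH314.PD

variable {L K : Type} [Field L] [Field K] [Algebra L K] {σ : Type} [Fintype σ]

/-- **Linear independence of products.** -/
theorem li_m [CharZero K] (f : σ → MvPolynomial σ L) (p : σ → K) (hf : ∀ i, aeval p (f i) = 0)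
    (hnd : ∀ v : σ → K, (∀ i, ∑ j, v j * aeval p (pderiv j (f i)) = 0) → v = 0)
    {ι : Type} (g : ι → MvPolynomial σ L) (hg : LinearIndependent L (fun i => aeval p (g i)))
    (m : (σ →₀ ℕ) → MvPolynomial σ L) (hm : ∀ a, aeval p (m a) ≠ 0) :
    LinearIndependent L (fun x : ι × (σ →₀ ℕ) => g x.1 * (∏ i, f i ^ (x.2 i)) * m x.2) := by
  classical
  rw [linearIndependent_iff]
  intro l hl
  by_contra hne
  have hsne : l.support.Nonempty := Finsupp.support_nonempty_iff.mpr hne
  obtain ⟨x0, hx0, hmin⟩ := Finset.exists_min_image l.support (fun x => x.2.degree) hsne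
  set r : ℕ := x0.2.degree with hr
  set D : (σ → K) → (σ → K) := fun v i => ∑ j, v j * aeval p (pderiv j (f i)) with hD
  set H : MvPolynomial σ K := ∑ x ∈ l.support,
    monomial x.2 (algebraMap L K (l x) * aeval p (g x.1) * aeval p (m x.2) *
      0 ^ (x.2.degree - r)) with hH
  have hHD : ∀ v, eval (D v) H = 0 := by
    intro v
    have h1 : Ph p v (Finsupp.linearCombination L
        (fun x : ι × (σ →₀ ℕ) => g x.1 * (∏ i, f i ^ (x.2 i)) * m x.2) l) = 0 := by
      rw [hl, map_zero]
    rw [Finsupp.linearCombination_apply, Finsupp.sum, map_sum] at h1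
    set u : σ → Polynomial K := fun i => (Ph p v (f i)).divX with hu
    have hfu : ∀ i, Ph p v (f i) = Polynomial.X * u i := by
      intro i
      have h2 := Polynomial.divX_mul_X_add (Ph p v (f i))
      rw [Ph_coeff_zero, hf i, Polynomial.C_0, add_zero, mul_comm] at h2
      exact h2.symm
    have hu0 : ∀ i, (u i).eval 0 = D v i := by
      intro i
      rw [← Polynomial.coeff_zero_eq_eval_zero, hu]
      simp only
      rw [Polynomial.coeff_divX, Ph_coeff_one]
    have hterm : ∀ x ∈ l.support, Ph p v (l x • (g x.1 * (∏ i, f i ^ (x.2 i)) * m x.2)) =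
        Polynomial.X ^ r * (Polynomial.C (algebraMap L K (l x)) * Ph p v (g x.1) *
          Ph p v (m x.2) * Polynomial.X ^ (x.2.degree - r) * ∏ i, u i ^ (x.2 i)) := by
      intro x hx
      have h2 : r ≤ x.2.degree := hmin x hx
      rw [map_smul, map_mul, map_mul, map_prod]
      have h3 : ∏ i, Ph p v (f i ^ (x.2 i)) =
          Polynomial.X ^ x.2.degree * ∏ i, u i ^ (x.2 i) := by
        simp only [map_pow, hfu, mul_pow]
        rw [Finset.prod_mul_distrib, Finset.prod_pow_eq_pow_sum, Finsupp.degree_eq_sum]
      have h4 : (Polynomial.X : Polynomial K) ^ x.2.degree =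
          Polynomial.X ^ r * Polynomial.X ^ (x.2.degree - r) := by
        rw [← pow_add, Nat.add_sub_cancel' h2]
      rw [h3, h4, Algebra.smul_def, Polynomial.algebraMap_apply]
      ring
    rw [Finset.sum_congr rfl hterm, ← Finset.mul_sum] at h1
    have h5 := (mul_eq_zero.mp h1).resolve_left (pow_ne_zero r Polynomial.X_ne_zero)
    have h6 := congrArg (Polynomial.eval 0) h5
    rw [Polynomial.eval_finset_sum, Polynomial.eval_zero] at h6
    rw [hH, map_sum]
    refine Eq.trans (Finset.sum_congr rfl fun x hx => ?_) h6
    rw [eval_monomial]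
    simp only [Polynomial.eval_mul, Polynomial.eval_C, Polynomial.eval_pow, Polynomial.eval_X,
      Polynomial.eval_prod, hu0]
    rw [← Polynomial.coeff_zero_eq_eval_zero, ← Polynomial.coeff_zero_eq_eval_zero, Ph_coeff_zero,
      Ph_coeff_zero]
    congr 1
    rw [Finsupp.prod_fintype _ _ (fun i => pow_zero _)]
  have hDsurj : Function.Surjective D := by
    let DL : (σ → K) →ₗ[K] (σ → K) :=
      { toFun := D
        map_add' := by
          intro v w
          funext i
          simp only [hD, Pi.add_apply, add_mul, Finset.sum_add_distrib]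
        map_smul' := by
          intro c v
          funext i
          simp only [hD, Pi.smul_apply, smul_eq_mul, RingHom.id_apply, Finset.mul_sum, mul_assoc] }
    have hinj : Function.Injective DL := by
      rw [← LinearMap.ker_eq_bot, LinearMap.ker_eq_bot']
      intro v hv
      exact hnd v fun i => congrFun hv i
    exact LinearMap.injective_iff_surjective.mp hinj
  have hH0 : H = 0 := by
    refine MvPolynomial.funext fun w => ?_
    obtain ⟨v, rfl⟩ := hDsurj w
    rw [hHD v, map_zero]
  -- the coefficient at the exponent of `x0`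
  have hc : coeff x0.2 H = (∑ x ∈ l.support.filter (fun x => x.2 = x0.2),
      algebraMap L K (l x) * aeval p (g x.1)) * aeval p (m x0.2) := by
    rw [hH, coeff_sum, Finset.sum_filter, Finset.sum_mul]
    refine Finset.sum_congr rfl fun x _ => ?_
    rw [coeff_monomial]
    by_cases h : x.2 = x0.2
    · rw [if_pos h, if_pos h, h, ← hr, Nat.sub_self, pow_zero, mul_one]
    · rw [if_neg h, if_neg h, zero_mul]
  rw [hH0, coeff_zero] at hc
  have hc := (mul_eq_zero.1 hc.symm).resolve_right (hm _)
  -- transport to the index set `ι`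
  set T : Finset ι := (l.support.filter (fun x => x.2 = x0.2)).image Prod.fst with hT
  have hc2 : ∑ i ∈ T, (l (i, x0.2)) • aeval p (g i) = 0 := by
    rw [hT, Finset.sum_image]
    · rw [← hc]
      refine Finset.sum_congr rfl fun x hx => ?_
      have hx2 := (Finset.mem_filter.1 hx).2
      rw [Algebra.smul_def]
      have h7 : (x.1, x0.2) = x := by rw [← hx2]
      rw [h7]
    · intro x hx y hy hxy
      have hx2 := (Finset.mem_filter.1 hx).2
      have hy2 := (Finset.mem_filter.1 hy).2
      exact Prod.ext hxy (hx2.trans hy2.symm)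
  have h8 := (linearIndependent_iff'.1 hg) T (fun i => l (i, x0.2)) hc2 x0.1
    (Finset.mem_image.2 ⟨x0, Finset.mem_filter.2 ⟨hx0, rfl⟩, rfl⟩)
  exact (Finsupp.mem_support_iff.mp hx0) h8

end Pool.Agent.Y196.Sp
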