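import Mathlib
import Pool.Agent.TH314.PD.UB
import Pool.Agent.Y196.Sp.LI
import Pool.Agent.Y196.Sp.Count

/-!
# Kushnirenko type bound: equations with exponents in a convex body
-/

set_option autoImplicit false

namespace Pool.Agent.Y196.Sp

open MvPolynomial Pool.Agent.TH314.PD Pointwise

section BQ

variable {L : Type} [Field L] {n : ℕ}

/-- degree at most `a` in the variable `none`; the other exponents are in `t P` up to `c` -/
def BQ (P : Set (Fin n → ℝ)) (a t c : ℕ) (f : MvPolynomial (Option (Fin n)) L) : Prop :=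
  ∀ α ∈ f.support, α none ≤ a ∧
    (fun l => (α (some l) : ℝ)) ∈ (t : ℝ) • P + Metric.closedBall (0 : Fin n → ℝ) c

variable {P : Set (Fin n → ℝ)}

theorem BQ.mono {a t c a' c' : ℕ} {f : MvPolynomial (Option (Fin n)) L} (h : BQ P a t c f)
    (ha : a ≤ a') (hc : c ≤ c') : BQ P a' t c' f :=
  fun α hα => ⟨(h α hα).1.trans ha, Set.add_subset_add_left
    (Metric.closedBall_subset_closedBall (by exact_mod_cast hc)) (h α hα).2⟩

theorem set_add (hP : Convex ℝ P) (t t' c c' : ℕ) :
    ((t : ℝ) • P + Metric.closedBall (0 : Fin n → ℝ) c) +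
      ((t' : ℝ) • P + Metric.closedBall (0 : Fin n → ℝ) c') ⊆
      (((t + t' : ℕ) : ℝ)) • P + Metric.closedBall (0 : Fin n → ℝ) ((c + c' : ℕ) : ℝ) := by
  rw [add_add_add_comm, Nat.cast_add t t', hP.add_smul (Nat.cast_nonneg t) (Nat.cast_nonneg t')]
  refine Set.add_subset_add_left ?_
  intro x hx
  obtain ⟨y, hy, z, hz, rfl⟩ := Set.mem_add.1 hx
  rw [mem_closedBall_zero_iff] at hy hz ⊢
  rw [Nat.cast_add]
  exact (norm_add_le _ _).trans (add_le_add hy hz)

theorem BQ.mul (hP : Convex ℝ P) {a t c a' t' c' : ℕ} {f g : MvPolynomial (Option (Fin n)) L}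
    (hf : BQ P a t c f) (hg : BQ P a' t' c' g) : BQ P (a + a') (t + t') (c + c') (f * g) := by
  classical
  intro α hα
  obtain ⟨β, hβ, γ, hγ, rfl⟩ := Finset.mem_add.1 (MvPolynomial.support_mul f g hα)
  have h1 := hf β hβ
  have h2 := hg γ hγ
  refine ⟨?_, ?_⟩
  · rw [Finsupp.add_apply]
    exact add_le_add h1.1 h2.1
  · refine set_add hP t t' c c' (Set.mem_add.2 ⟨_, h1.2, _, h2.2, ?_⟩)
    funext l
    rw [Pi.add_apply, Finsupp.add_apply, Nat.cast_add]

theorem zero_mem_set (hne : P.Nonempty) (c : ℕ) {x : Fin n → ℝ} (hx : ‖x‖ ≤ c) :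
    x ∈ ((0 : ℕ) : ℝ) • P + Metric.closedBall (0 : Fin n → ℝ) c := by
  obtain ⟨q, hq⟩ := hne
  refine Set.mem_add.2 ⟨0, ?_, x, ?_, zero_add x⟩
  · exact Set.mem_smul_set.2 ⟨q, hq, by rw [Nat.cast_zero, zero_smul]⟩
  · rwa [mem_closedBall_zero_iff]

theorem BQ.one (hne : P.Nonempty) : BQ P 0 0 0 (1 : MvPolynomial (Option (Fin n)) L) := by
  classical
  intro α hα
  have h1 : α = 0 := by
    by_contra h
    rw [mem_support_iff, coeff_one, if_neg (fun h' => h h'.symm)] at hα
    exact hα rfl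
  subst h1
  refine ⟨by simp, zero_mem_set hne 0 ?_⟩
  have h2 : (fun l : Fin n => (((0 : Option (Fin n) →₀ ℕ) (some l) : ℕ) : ℝ)) = 0 := by
    funext l
    simp
  rw [h2, norm_zero]
  simp

theorem BQ.pow (hP : Convex ℝ P) (hne : P.Nonempty) {a t c : ℕ}
    {f : MvPolynomial (Option (Fin n)) L} (hf : BQ P a t c f) (m : ℕ) :
    BQ P (m * a) (m * t) (m * c) (f ^ m) := by
  induction m with
  | zero =>
    rw [pow_zero, zero_mul, zero_mul, zero_mul]
    exact BQ.one hne
  | succ m ih =>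
    rw [pow_succ, Nat.succ_mul, Nat.succ_mul, Nat.succ_mul]
    exact ih.mul hP hf

theorem BQ.prod (hP : Convex ℝ P) (hne : P.Nonempty) {ι : Type} (s : Finset ι) {a t c : ι → ℕ}
    {f : ι → MvPolynomial (Option (Fin n)) L} (hf : ∀ i ∈ s, BQ P (a i) (t i) (c i) (f i)) :
    BQ P (∑ i ∈ s, a i) (∑ i ∈ s, t i) (∑ i ∈ s, c i) (∏ i ∈ s, f i) := by
  classical
  induction s using Finset.induction_on with
  | empty =>
    rw [Finset.prod_empty, Finset.sum_empty, Finset.sum_empty, Finset.sum_empty]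
    exact BQ.one hne
  | insert i s hi ih =>
    rw [Finset.prod_insert hi, Finset.sum_insert hi, Finset.sum_insert hi, Finset.sum_insert hi]
    exact (hf i (Finset.mem_insert_self _ _)).mul hP
      (ih fun j hj => hf j (Finset.mem_insert_of_mem hj))

theorem BQ.exists (hne : P.Nonempty) (f : MvPolynomial (Option (Fin n)) L) : ∃ c, BQ P c 0 c f := by
  refine ⟨f.totalDegree, fun α hα => ?_⟩
  have h1 := le_totalDegree hα
  rw [Finsupp.sum_fintype _ _ (fun _ => rfl), Fintype.sum_option] at h1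
  refine ⟨by omega, zero_mem_set hne _ ?_⟩
  rw [pi_norm_le_iff_of_nonneg (Nat.cast_nonneg _)]
  intro l
  rw [Real.norm_natCast]
  have := Finset.single_le_sum (f := fun l => α (some l)) (fun _ _ => Nat.zero_le _)
    (Finset.mem_univ l)
  have h2 : α (some l) ≤ f.totalDegree := by omega
  exact_mod_cast h2

theorem BQ.add {a t c : ℕ} {f g : MvPolynomial (Option (Fin n)) L} (hf : BQ P a t c f)
    (hg : BQ P a t c g) : BQ P a t c (f + g) := by
  classical
  intro α hα
  rcases Finset.mem_union.1 (MvPolynomial.support_add hα) with h | h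
  · exact hf α h
  · exact hg α h

theorem BQ.sum {ι : Type} (s : Finset ι) {a t c : ℕ} {f : ι → MvPolynomial (Option (Fin n)) L}
    (hf : ∀ i ∈ s, BQ P a t c (f i)) : BQ P a t c (∑ i ∈ s, f i) := by
  classical
  intro α hα
  obtain ⟨i, hi, h⟩ := Finset.mem_biUnion.1 (MvPolynomial.support_sum hα)
  exact hf i hi α h

/-- the set of exponents -/
def exQ (P : Set (Fin n → ℝ)) (a t c : ℕ) : Set (Option (Fin n) →₀ ℕ) :=
  {α | α none ≤ a ∧
    (fun l => (α (some l) : ℝ)) ∈ (t : ℝ) • P + Metric.closedBall (0 : Fin n → ℝ) c}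

theorem mem_restrictQ {a t c : ℕ} {f : MvPolynomial (Option (Fin n)) L} :
    f ∈ restrictSupport L (exQ P a t c) ↔ BQ P a t c f := by
  rw [mem_restrictSupport_iff]
  exact Iff.rfl

theorem exQ_inj (P : Set (Fin n → ℝ)) (a t c : ℕ) :
    ∃ F : exQ P a t c → (Fin (a + 1) × lat P t c), Function.Injective F := by
  refine ⟨fun α => (⟨α.1 none, by have := α.2.1; omega⟩, ⟨α.1.some, α.2.2⟩), ?_⟩
  intro α β h
  simp only [Prod.mk.injEq, Fin.mk.injEq, Subtype.mk.injEq] at h
  apply Subtype.ext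
  ext i
  cases i with
  | none => exact h.1
  | some l => exact DFunLike.congr_fun h.2 l

theorem finrank_restrictQ (hP : IsCompact P) {t : ℕ} (ht : 1 ≤ t) (a c : ℕ) :
    Module.Finite L (restrictSupport L (exQ P a t c)) ∧
      Module.finrank L (restrictSupport L (exQ P a t c)) ≤ (a + 1) * (lat P t c).ncard := by
  classical
  obtain ⟨F, hF⟩ := exQ_inj P a t c
  have hf : (lat P t c).Finite := lat_finite hP ht c
  have : Finite (lat P t c) := hf
  have : Fintype (lat P t c) := Fintype.ofFinite _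
  have : Finite (exQ P a t c) := Finite.of_injective F hF
  have : Fintype (exQ P a t c) := Fintype.ofFinite _
  let B := MvPolynomial.basisRestrictSupport L (exQ P a t c)
  refine ⟨Module.Finite.of_basis B, ?_⟩
  rw [Module.finrank_eq_card_basis B]
  refine (Fintype.card_le_of_injective F hF).trans ?_
  rw [Fintype.card_prod, Fintype.card_fin, ← Nat.card_coe_set_eq, Nat.card_eq_fintype_card]

end BQ

section

variable {L K : Type} [Field L] [Field K] [Algebra L K] {n : ℕ}

/-- **Upper bound.** -/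
theorem ub_sp [CharZero K] [FiniteDimensional L K] {P : Set (Fin n → ℝ)} (hPc : Convex ℝ P)
    (hP : IsCompact P)
    (E : Option (Fin n) → MvPolynomial (Option (Fin n)) L) (p : Option (Fin n) → K)
    (hE : ∀ i, BQ P 1 1 0 (E i)) (h0 : ∀ i, aeval p (E i) = 0)
    (hnd : ∀ v : Option (Fin n) → K,
      (∀ i, ∑ j, v j * aeval p (pderiv j (E i)) = 0) → v = 0)
    (m : MvPolynomial (Option (Fin n)) L) (hm : BQ P 0 1 0 m) (hm0 : aeval p m ≠ 0)
    (hsurj : ∀ z : K, ∃ g : MvPolynomial (Option (Fin n)) L, aeval p g = z) :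
    (Module.finrank L K : ℝ) ≤ (n + 1).factorial * (MeasureTheory.volume P).toReal := by
  classical
  have hne : P.Nonempty := by
    have h1 : m ≠ 0 := by
      rintro rfl
      exact hm0 (map_zero _)
    obtain ⟨α, hα⟩ := MvPolynomial.ne_zero_iff.1 h1
    obtain ⟨y, hy, -⟩ := Set.mem_add.1 (hm α (MvPolynomial.mem_support_iff.2 hα)).2
    obtain ⟨q, hq, -⟩ := Set.mem_smul_set.1 hy
    exact ⟨q, hq⟩
  let b := Module.finBasis L K
  choose g hg using fun i => hsurj (b i)
  have hli : LinearIndependent L (fun i => aeval p (g i)) := by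
    have h1 : (fun i => aeval p (g i)) = b := funext hg
    rw [h1]
    exact b.linearIndependent
  choose cc hcc using fun i => BQ.exists hne (g i)
  set c := ∑ i, cc i with hc
  have hgc : ∀ i, BQ P c 0 c (g i) := fun i =>
    (hcc i).mono (Finset.single_le_sum (f := cc) (fun _ _ => Nat.zero_le _) (Finset.mem_univ i))
      (Finset.single_le_sum (f := cc) (fun _ _ => Nat.zero_le _) (Finset.mem_univ i))
  refine asym_sp (c := c) hP fun l hl => ?_
  have hLI := li_m E p h0 hnd g hli (fun a => m ^ (l - a.degree)) (fun a => by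
    rw [map_pow]
    exact pow_ne_zero _ hm0)
  set V := restrictSupport L (exQ P (l + c) l c) with hV
  obtain ⟨hfin, hrank⟩ := finrank_restrictQ (L := L) hP hl (l + c) c
  let h' : Fin (Module.finrank L K) × bd (Option (Fin n)) l → V := fun x =>
    ⟨g x.1 * (∏ i, E i ^ (x.2.1 i)) * m ^ (l - x.2.1.degree), by
      rw [hV, mem_restrictQ]
      have hα : ∑ i, x.2.1 i ≤ l := mem_bd.1 x.2.2
      have hd : x.2.1.degree = ∑ i, x.2.1 i := Finsupp.degree_eq_sum _
      have h1 : BQ P (∑ i, x.2.1 i * 1) (∑ i, x.2.1 i * 1) (∑ i, x.2.1 i * 0)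
          (∏ i, E i ^ (x.2.1 i)) :=
        BQ.prod hPc hne _ fun i _ => (hE i).pow hPc hne _
      have h2 := ((hgc x.1).mul hPc h1).mul hPc (hm.pow hPc hne (l - x.2.1.degree))
      simp only [mul_one, mul_zero, Finset.sum_const_zero, add_zero, zero_add] at h2
      have h3 : ∑ i, x.2.1 i + (l - x.2.1.degree) = l := by omega
      rw [h3] at h2
      exact h2.mono (by omega) le_rfl⟩
  have hli' : LinearIndependent L h' := by
    refine LinearIndependent.of_comp (Submodule.subtype _) ?_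
    have h1 : (Submodule.subtype V) ∘ h' =
        (fun x : Fin (Module.finrank L K) × (Option (Fin n) →₀ ℕ) =>
          g x.1 * (∏ i, E i ^ (x.2 i)) * m ^ (l - x.2.degree)) ∘
        (fun x : Fin (Module.finrank L K) × bd (Option (Fin n)) l => (x.1, x.2.1)) := rfl
    rw [h1]
    refine hLI.comp _ ?_
    rintro ⟨t, α⟩ ⟨t', α'⟩ hx
    simp only [Prod.mk.injEq] at hx
    exact Prod.ext hx.1 (Subtype.ext hx.2)
  have h1 := hli'.fintype_card_le_finrank
  rw [Fintype.card_prod, Fintype.card_coe, card_bd, Fintype.card_fin, Fintype.card_option,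
    Fintype.card_fin] at h1
  exact h1.trans hrank

end

end Pool.Agent.Y196.Sp
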