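import Mathlib
import Pool.Agent.TH920.MC.Up
import Pool.Agent.Y196.Sp.UB

/-!
# Polynomials with prescribed exponents: the equations, and the upper bound
-/

set_option autoImplicit false

namespace Pool.Agent.Y196.Sp

open MvPolynomial Pool.Agent.TH314.PD Pool.Agent.TH920.MA Pointwise
open Pool.Agent.TH920.MC (coeff_X_pderiv io_supp)

noncomputable section

variable {n : ℕ}

/-- the value of the affine function number `i` at the exponent `a` -/
def ph (w : Option (Fin n) → ℂ) (c : Option (Fin n) → Fin n → ℂ) (i : Option (Fin n))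
    (a : Fin n →₀ ℕ) : ℂ := w i + ∑ l, c i l * (a l : ℂ)

/-- the operator which multiplies the coefficient at `a` by the value of the affine function -/
def Th (w : Option (Fin n) → ℂ) (c : Option (Fin n) → Fin n → ℂ) (i : Option (Fin n))
    (g : MvPolynomial (Fin n) ℂ) : MvPolynomial (Fin n) ℂ :=
  C (w i) * g + ∑ l, C (c i l) * (X l * pderiv l g)

/-- the same, followed by a shift -/
def TT (w : Option (Fin n) → ℂ) (c : Option (Fin n) → Fin n → ℂ)
    (s : Option (Fin n) → (Fin n →₀ ℕ)) (i : Option (Fin n))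
    (g : MvPolynomial (Fin n) ℂ) : MvPolynomial (Fin n) ℂ :=
  monomial (s i) 1 * Th w c i g

variable {w : Option (Fin n) → ℂ} {c : Option (Fin n) → Fin n → ℂ}
  {s : Option (Fin n) → (Fin n →₀ ℕ)}

theorem coeff_Th (i : Option (Fin n)) (g : MvPolynomial (Fin n) ℂ) (a : Fin n →₀ ℕ) :
    coeff a (Th w c i g) = ph w c i a * coeff a g := by
  unfold Th ph
  rw [coeff_add, coeff_C_mul, coeff_sum, add_mul, Finset.sum_mul]
  congr 1
  refine Finset.sum_congr rfl fun l _ => ?_
  rw [coeff_C_mul, coeff_X_pderiv]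
  ring

theorem supp_TT {i : Option (Fin n)} {g : MvPolynomial (Fin n) ℂ} {β : Fin n →₀ ℕ}
    (hβ : β ∈ (TT w c s i g).support) : ∃ a ∈ g.support, β = a + s i ∧ ph w c i a ≠ 0 := by
  classical
  obtain ⟨b, hb, a, ha, rfl⟩ := Finset.mem_add.1 (MvPolynomial.support_mul _ _ hβ)
  have h1 : b = s i := by
    have := support_monomial_subset hb
    rwa [Finset.mem_singleton] at this
  rw [mem_support_iff, coeff_Th] at ha
  exact ⟨a, mem_support_iff.2 (right_ne_zero_of_mul ha), by rw [h1, add_comm],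
    left_ne_zero_of_mul ha⟩

variable {K : Type} [Field K] [Algebra ℂ K]

/-- the affine functions are linearly independent -/
def Ind (w : Option (Fin n) → ℂ) (c : Option (Fin n) → Fin n → ℂ) : Prop :=
  (Matrix.of fun i j => Option.elim j (w i) (c i) :
    Matrix (Option (Fin n)) (Option (Fin n)) ℂ).det ≠ 0

theorem Ind.apply (h : Ind w c) (e0 : K) (e : Fin n → K)
    (he : ∀ i, algebraMap ℂ K (w i) * e0 + ∑ l, algebraMap ℂ K (c i l) * e l = 0) :
    e0 = 0 ∧ e = 0 := by
  classical
  have h1 : ((Matrix.of fun i j => Option.elim j (w i) (c i) :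
      Matrix (Option (Fin n)) (Option (Fin n)) ℂ).map (algebraMap ℂ K)).det ≠ 0 := by
    rw [← RingHom.mapMatrix_apply, ← RingHom.map_det]
    exact (map_ne_zero_iff _ (algebraMap ℂ K).injective).2 h
  let v : Option (Fin n) → K := fun j => Option.elim j e0 e
  have h2 : ((Matrix.of fun i j => Option.elim j (w i) (c i) :
      Matrix (Option (Fin n)) (Option (Fin n)) ℂ).map (algebraMap ℂ K)).mulVec v = 0 := by
    funext i
    rw [Pi.zero_apply, ← he i]
    unfold Matrix.mulVec dotProduct
    rw [Fintype.sum_option]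
    rfl
  have h3 : v = 0 := by
    by_contra hv
    exact h1 (Matrix.exists_mulVec_eq_zero_iff.1 ⟨v, hv, h2⟩)
  exact ⟨congrFun h3 none, funext fun l => congrFun h3 (some l)⟩

/-- nondegeneracy -/
theorem nd_T [CharZero K] (hI : Ind w c) (al : MvPolynomial (Fin n) ℂ →ₐ[ℂ] K)
    (hal : Function.Injective al) (hb : IsTranscendenceBasis ℂ (fun l : Fin n => al (X l)))
    (Γ : Fin (n + 2) → MvPolynomial (Fin n) ℂ) (Y : Fin (n + 2) → K) (hY0 : Y 0 = 1)
    (hr0 : ∑ j, Y j * al (Γ j) = 0) (hr1 : ∀ l, ∑ j, Y j * al (pderiv l (Γ j)) = 0)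
    (hlast : Γ (Fin.last (n + 1)) ≠ 0)
    (hind : ∀ (a : K) (w : Fin n → K),
      (∀ j, a * al (Γ j) + ∑ l, w l * al (pderiv l (Γ j)) = 0) → a = 0 ∧ w = 0)
    (hder : ∀ δ : Derivation ℂ (K) (K), (∀ j, δ (Y j) = 0) → δ = 0)
    (μ : K) (v : Fin n → K)
    (h : ∀ i : Option (Fin n), μ * al (TT w c s i (Γ (Fin.last (n + 1)))) +
      ∑ m, v m * ∑ j, Y j * al (pderiv m (TT w c s i (Γ j))) = 0) : μ = 0 ∧ v = 0 := by
  classical
  have hX0 : ∀ l : Fin n, al (X l) ≠ 0 := fun l h0 =>
    X_ne_zero l (hal (by rw [h0, map_zero]))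
  have hmon : ∀ i, al (monomial (s i) 1) ≠ 0 := fun i h0 => by
    have h1 : (monomial (s i) (1 : ℂ)) = 0 := hal (by rw [h0, map_zero])
    rw [monomial_eq_zero] at h1
    exact one_ne_zero h1
  have halC : ∀ z : ℂ, al (C z) = algebraMap ℂ K z := fun z => al.commutes z
  -- the derivative of the equations
  have h1 : ∀ i m, ∑ j, Y j * al (pderiv m (TT w c s i (Γ j))) =
      al (monomial (s i) 1) * ∑ l, algebraMap ℂ K (c i l) *
        (al (X l) * ∑ j, Y j * al (pderiv m (pderiv l (Γ j)))) := by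
    intro i m
    have h2 : ∀ j, Y j * al (pderiv m (TT w c s i (Γ j))) =
        al (pderiv m (monomial (s i) 1)) * (algebraMap ℂ K (w i) * (Y j * al (Γ j)) +
          ∑ l, algebraMap ℂ K (c i l) * (al (X l) * (Y j * al (pderiv l (Γ j))))) +
        al (monomial (s i) 1) * (algebraMap ℂ K (w i) * (Y j * al (pderiv m (Γ j))) +
          (algebraMap ℂ K (c i m) * (Y j * al (pderiv m (Γ j))) +
          ∑ l, algebraMap ℂ K (c i l) * (al (X l) * (Y j * al (pderiv m (pderiv l (Γ j))))))) := by
      intro j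
      have h3 : pderiv m (TT w c s i (Γ j)) =
          pderiv m (monomial (s i) 1) * (C (w i) * Γ j + ∑ l, C (c i l) * (X l * pderiv l (Γ j))) +
          monomial (s i) 1 * (C (w i) * pderiv m (Γ j) + (C (c i m) * pderiv m (Γ j) +
            ∑ l, C (c i l) * (X l * pderiv m (pderiv l (Γ j))))) := by
        unfold TT Th
        rw [pderiv_mul, map_add, map_sum, pderiv_C_mul]
        congr 2
        congr 1
        have h4 : ∀ l, pderiv m (C (c i l) * (X l * pderiv l (Γ j))) =
            (if l = m then C (c i m) * pderiv m (Γ j) else 0) +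
              C (c i l) * (X l * pderiv m (pderiv l (Γ j))) := by
          intro l
          rw [pderiv_C_mul, pderiv_mul]
          by_cases hl : l = m
          · subst hl
            rw [pderiv_X_self, if_pos rfl]
            ring
          · rw [pderiv_X_of_ne hl, if_neg hl]
            ring
        rw [Finset.sum_congr rfl fun l _ => h4 l, Finset.sum_add_distrib, Finset.sum_ite_eq',
          if_pos (Finset.mem_univ _)]
      rw [h3]
      simp only [map_add, map_mul, map_sum, halC, Finset.mul_sum, mul_add]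
      ring_nf
    rw [Finset.sum_congr rfl fun j _ => h2 j, Finset.sum_add_distrib, ← Finset.mul_sum,
      ← Finset.mul_sum, Finset.sum_add_distrib, Finset.sum_add_distrib, Finset.sum_add_distrib,
      ← Finset.mul_sum, ← Finset.mul_sum, ← Finset.mul_sum, hr0, hr1 m, Finset.sum_comm]
    have h5 : ∀ l, ∑ j, algebraMap ℂ K (c i l) * (al (X l) * (Y j * al (pderiv l (Γ j)))) = 0 := by
      intro l
      rw [← Finset.mul_sum, ← Finset.mul_sum, hr1 l, mul_zero, mul_zero]
    rw [Finset.sum_eq_zero fun l _ => h5 l, mul_zero, mul_zero, zero_add, mul_zero, zero_add,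
      zero_add, zero_add, Finset.sum_comm]
    congr 1
    refine Finset.sum_congr rfl fun l _ => ?_
    rw [← Finset.mul_sum, ← Finset.mul_sum]
  have h2 : ∀ i, algebraMap ℂ K (w i) * (μ * al (Γ (Fin.last (n + 1)))) +
      ∑ l, algebraMap ℂ K (c i l) * (al (X l) * (μ * al (pderiv l (Γ (Fin.last (n + 1)))) +
        ∑ m, v m * ∑ j, Y j * al (pderiv m (pderiv l (Γ j))))) = 0 := by
    intro i
    have h3 := h i
    rw [Finset.sum_congr rfl fun m _ => by rw [h1 i m]] at h3
    have h4 : μ * al (TT w c s i (Γ (Fin.last (n + 1)))) +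
        ∑ m, v m * (al (monomial (s i) 1) * ∑ l, algebraMap ℂ K (c i l) *
          (al (X l) * ∑ j, Y j * al (pderiv m (pderiv l (Γ j))))) =
        al (monomial (s i) 1) * (algebraMap ℂ K (w i) * (μ * al (Γ (Fin.last (n + 1)))) +
          ∑ l, algebraMap ℂ K (c i l) * (al (X l) * (μ * al (pderiv l (Γ (Fin.last (n + 1)))) +
            ∑ m, v m * ∑ j, Y j * al (pderiv m (pderiv l (Γ j)))))) := by
      have h5 : al (TT w c s i (Γ (Fin.last (n + 1)))) = al (monomial (s i) 1) *
          (algebraMap ℂ K (w i) * al (Γ (Fin.last (n + 1))) +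
            ∑ l, algebraMap ℂ K (c i l) * (al (X l) * al (pderiv l (Γ (Fin.last (n + 1)))))) := by
        unfold TT Th
        simp only [map_add, map_mul, map_sum, halC]
      have h6 : ∑ m, v m * (al (monomial (s i) 1) * ∑ l, algebraMap ℂ K (c i l) *
          (al (X l) * ∑ j, Y j * al (pderiv m (pderiv l (Γ j))))) =
          al (monomial (s i) 1) * ∑ l, algebraMap ℂ K (c i l) * (al (X l) *
            ∑ m, v m * ∑ j, Y j * al (pderiv m (pderiv l (Γ j)))) := by
        have h7 : ∀ m, v m * (al (monomial (s i) 1) * ∑ l, algebraMap ℂ K (c i l) *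
            (al (X l) * ∑ j, Y j * al (pderiv m (pderiv l (Γ j))))) =
            al (monomial (s i) 1) * ∑ l, algebraMap ℂ K (c i l) * (al (X l) *
              (v m * ∑ j, Y j * al (pderiv m (pderiv l (Γ j))))) := by
          intro m
          rw [mul_left_comm, Finset.mul_sum]
          congr 1
          refine Finset.sum_congr rfl fun l _ => ?_
          ring
        rw [Finset.sum_congr rfl fun m _ => h7 m, ← Finset.mul_sum, Finset.sum_comm]
        congr 1
        refine Finset.sum_congr rfl fun l _ => ?_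
        rw [← Finset.mul_sum, ← Finset.mul_sum]
      rw [h5, h6]
      have h8 : ∀ l, algebraMap ℂ K (c i l) * (al (X l) *
          (μ * al (pderiv l (Γ (Fin.last (n + 1)))) +
            ∑ m, v m * ∑ j, Y j * al (pderiv m (pderiv l (Γ j))))) =
          μ * (algebraMap ℂ K (c i l) * (al (X l) * al (pderiv l (Γ (Fin.last (n + 1)))))) +
          algebraMap ℂ K (c i l) * (al (X l) *
            ∑ m, v m * ∑ j, Y j * al (pderiv m (pderiv l (Γ j)))) := by
        intro l
        ring
      rw [Finset.sum_congr rfl fun l _ => h8 l, Finset.sum_add_distrib, ← Finset.mul_sum]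
      ring
    rw [h4] at h3
    exact (mul_eq_zero.1 h3).resolve_left (hmon i)
  obtain ⟨h3, h4⟩ := hI.apply _ _ h2
  have hμ : μ = 0 := by
    rcases mul_eq_zero.1 h3 with h5 | h5
    · exact h5
    · exact absurd h5 ((map_ne_zero_iff al hal).2 hlast)
  refine ⟨hμ, ?_⟩
  subst hμ
  refine nd_hess al hb Γ Y hY0 hr0 hr1 hind hder v fun l => ?_
  have h5 := congrFun h4 l
  rw [Pi.zero_apply] at h5
  have h6 := (mul_eq_zero.1 h5).resolve_left (hX0 l)
  rwa [zero_mul, zero_add] at h6

/-- **Upper bound.** -/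
theorem upper_sp [CharZero K] (hI : Ind w c) {P : Set (Fin n → ℝ)} (hPc : Convex ℝ P)
    (hP : IsCompact P) (A : Set (Fin n →₀ ℕ))
    (hA : ∀ i, ∀ a ∈ A, ph w c i a ≠ 0 → rpt (a + s i) ∈ P)
    (al : MvPolynomial (Fin n) ℂ →ₐ[ℂ] K)
    (hal : Function.Injective al) (hb : IsTranscendenceBasis ℂ (fun l : Fin n => al (X l)))
    (hfrac : ∀ z : K, ∃ a b, z = al a / al b)
    (Γ : Fin (n + 2) → MvPolynomial (Fin n) ℂ) (hΓ : ∀ j, ((Γ j).support : Set (Fin n →₀ ℕ)) ⊆ A)
    (x : Fin (n + 2) → K) (p : Fin (n + 1) → MvPolynomial (Fin (n + 2)) ℂ)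
    [Algebra.IsAlgebraic (LL x p) K]
    (Y : Fin (n + 2) → K) (hY0 : Y 0 = 1) (hYc : ∀ j : Fin (n + 1), Y j.castSucc = yy x p j)
    (hr0 : ∑ j, Y j * al (Γ j) = 0) (hr1 : ∀ l, ∑ j, Y j * al (pderiv l (Γ j)) = 0)
    (hlast : Γ (Fin.last (n + 1)) ≠ 0)
    (hind : ∀ (a : K) (w : Fin n → K),
      (∀ j, a * al (Γ j) + ∑ l, w l * al (pderiv l (Γ j)) = 0) → a = 0 ∧ w = 0) :
    (Module.finrank (LL x p) K : ℝ) ≤ (n + 1).factorial * (MeasureTheory.volume P).toReal := by
  classical
  have hfd : FiniteDimensional (LL x p) K := finite_dim al hfrac (LL x p)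
  set L := LL x p with hL
  let yL : Fin (n + 1) → L := fun j => ⟨yy x p j, IntermediateField.subset_adjoin _ _ ⟨j, rfl⟩⟩
  let E : Option (Fin n) → MvPolynomial (Option (Fin n)) L := fun i =>
    (∑ j : Fin (n + 1), C (yL j) * io L (TT w c s i (Γ j.castSucc))) +
      X none * io L (TT w c s i (Γ (Fin.last (n + 1))))
  let pt : Option (Fin n) → K := fun i => match i with
    | none => Y (Fin.last (n + 1))
    | some l => al (X l)
  have hX0 : ∀ l : Fin n, al (X l) ≠ 0 := fun l h0 =>
    X_ne_zero l (hal (by rw [h0, map_zero]))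
  have hio : ∀ g : MvPolynomial (Fin n) ℂ, aeval pt (io L g) = al g := by
    intro g
    rw [aeval_io]
    have h1 : (aeval (fun l => pt (some l)) : MvPolynomial (Fin n) ℂ →ₐ[ℂ] K) = al := by
      apply MvPolynomial.algHom_ext
      intro l
      rw [aeval_X]
    rw [h1]
  have hsum : ∀ f : Fin (n + 2) → MvPolynomial (Fin n) ℂ,
      aeval pt ((∑ j : Fin (n + 1), C (yL j) * io L (f j.castSucc)) +
        X none * io L (f (Fin.last (n + 1)))) = ∑ j, Y j * al (f j) := by
    intro f
    have h2 : ∀ j : Fin (n + 1), aeval pt (C (yL j) * io L (f j.castSucc)) =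
        Y j.castSucc * al (f j.castSucc) := by
      intro j
      rw [map_mul, aeval_C, hio, hYc]
      rfl
    rw [map_add, map_sum, map_mul, aeval_X, hio, Finset.sum_congr rfl fun j _ => h2 j]
    exact (Fin.sum_univ_castSucc (fun j => Y j * al (f j))).symm
  have halC : ∀ z : ℂ, al (C z) = algebraMap ℂ K z := fun z => al.commutes z
  have hE0 : ∀ i, aeval pt (E i) = 0 := by
    intro i
    have h0 : aeval pt (E i) = ∑ j, Y j * al (TT w c s i (Γ j)) := hsum (fun j => TT w c s i (Γ j))
    rw [h0]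
    have h1 : ∀ j, Y j * al (TT w c s i (Γ j)) = al (monomial (s i) 1) *
        (algebraMap ℂ K (w i) * (Y j * al (Γ j)) +
          ∑ l, algebraMap ℂ K (c i l) * (al (X l) * (Y j * al (pderiv l (Γ j))))) := by
      intro j
      unfold TT Th
      simp only [map_add, map_mul, map_sum, halC, Finset.mul_sum, mul_add]
      congr 1
      · ring
      · exact Finset.sum_congr rfl fun l _ => by ring
    rw [Finset.sum_congr rfl fun j _ => h1 j, ← Finset.mul_sum, Finset.sum_add_distrib,
      ← Finset.mul_sum, hr0, mul_zero, zero_add, Finset.sum_comm, Finset.sum_eq_zero, mul_zero]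
    intro l _
    rw [← Finset.mul_sum, ← Finset.mul_sum, hr1 l, mul_zero, mul_zero]
  have hdn : ∀ i, pderiv none (E i) = io L (TT w c s i (Γ (Fin.last (n + 1)))) := by
    intro i
    change pderiv none ((∑ j : Fin (n + 1), C (yL j) * io L (TT w c s i (Γ j.castSucc))) +
      X none * io L (TT w c s i (Γ (Fin.last (n + 1))))) = _
    rw [map_add, map_sum, pderiv_mul, pderiv_X_self, pderiv_none_io, mul_zero, add_zero, one_mul]
    rw [Finset.sum_eq_zero, zero_add]
    intro j _
    rw [pderiv_C_mul, pderiv_none_io, mul_zero]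
  have hds : ∀ i m, pderiv (some m) (E i) =
      (∑ j : Fin (n + 1), C (yL j) * io L (pderiv m (TT w c s i (Γ j.castSucc)))) +
        X none * io L (pderiv m (TT w c s i (Γ (Fin.last (n + 1))))) := by
    intro i m
    change pderiv (some m) ((∑ j : Fin (n + 1), C (yL j) * io L (TT w c s i (Γ j.castSucc))) +
      X none * io L (TT w c s i (Γ (Fin.last (n + 1))))) = _
    rw [map_add, map_sum, pderiv_mul, pderiv_X_of_ne (by simp), zero_mul, zero_add, pderiv_some_io]
    congr 1
    refine Finset.sum_congr rfl fun j _ => ?_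
    rw [pderiv_C_mul, pderiv_some_io]
  -- the exponents
  have hsh : ∀ {β : Option (Fin n) →₀ ℕ} {a : Fin n →₀ ℕ}, (∀ l, β (some l) = a l) →
      rpt a ∈ P → (fun l => (β (some l) : ℝ)) ∈
        ((1 : ℕ) : ℝ) • P + Metric.closedBall (0 : Fin n → ℝ) ((0 : ℕ) : ℝ) := by
    intro β a h1 h2
    refine Set.mem_add.2 ⟨rpt a, ?_, 0, ?_, ?_⟩
    · exact Set.mem_smul_set.2 ⟨rpt a, h2, by rw [Nat.cast_one, one_smul]⟩
    · rw [mem_closedBall_zero_iff, norm_zero, Nat.cast_zero]
    · rw [add_zero]
      funext l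
      rw [h1 l]
      rfl
  have hio2 : ∀ i (g : MvPolynomial (Fin n) ℂ), (g.support : Set (Fin n →₀ ℕ)) ⊆ A →
      BQ P 0 1 0 (io L (TT w c s i g)) := by
    intro i g hg β hβ
    obtain ⟨h1, α, hα, h2⟩ := io_supp L hβ
    obtain ⟨a, ha, rfl, h3⟩ := supp_TT hα
    exact ⟨h1.le, hsh h2 (hA i a (hg ha) h3)⟩
  have hE : ∀ i, BQ P 1 1 0 (E i) := by
    intro i
    refine BQ.add (BQ.sum _ fun j _ => ?_) ?_
    · intro β hβ
      rw [C_mul'] at hβ
      exact (hio2 i _ (hΓ _)).mono (Nat.zero_le 1) le_rfl β (MvPolynomial.support_smul hβ)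
    · intro β hβ
      obtain ⟨a, ha, b, hb, rfl⟩ := Finset.mem_add.1 (MvPolynomial.support_mul _ _ hβ)
      have h3 : a = Finsupp.single none 1 := by
        have := support_monomial_subset ha
        rwa [Finset.mem_singleton] at this
      subst h3
      have h4 := hio2 i _ (hΓ _) b hb
      refine ⟨?_, ?_⟩
      · rw [Finsupp.add_apply, Finsupp.single_eq_same]
        have := h4.1
        omega
      · have h5 : (fun l : Fin n =>
            (((Finsupp.single none 1 + b : Option (Fin n) →₀ ℕ) (some l) : ℕ) : ℝ)) =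
            fun l => (b (some l) : ℝ) := by
          funext l
          rw [Finsupp.add_apply, Finsupp.single_eq_of_ne (by simp), zero_add]
        rw [h5]
        exact h4.2
  -- a monomial
  obtain ⟨a0, ha0⟩ := MvPolynomial.ne_zero_iff.1 hlast
  have ha0A : a0 ∈ A := hΓ _ (MvPolynomial.mem_support_iff.2 ha0)
  obtain ⟨i0, hi0⟩ : ∃ i, ph w c i a0 ≠ 0 := by
    by_contra hcon
    push Not at hcon
    have h1 := hI.apply (K := ℂ) 1 (fun l => (a0 l : ℂ)) (fun i => by
      have h2 := hcon i
      unfold ph at h2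
      rw [Algebra.algebraMap_self_apply, mul_one]
      simp only [Algebra.algebraMap_self_apply]
      exact h2)
    exact one_ne_zero h1.1
  have hm : BQ P 0 1 0 (io L (monomial (a0 + s i0) (1 : ℂ))) := by
    intro β hβ
    obtain ⟨h1, α, hα, h2⟩ := io_supp L hβ
    have h3 : α = a0 + s i0 := by
      have := support_monomial_subset hα
      rwa [Finset.mem_singleton] at this
    subst h3
    exact ⟨h1.le, hsh h2 (hA i0 a0 ha0A hi0)⟩
  have hm0 : aeval pt (io L (monomial (a0 + s i0) (1 : ℂ))) ≠ 0 := by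
    rw [hio]
    intro h0
    have h1 : (monomial (a0 + s i0) (1 : ℂ)) = 0 := hal (by rw [h0, map_zero])
    rw [monomial_eq_zero] at h1
    exact one_ne_zero h1
  refine ub_sp hPc hP E pt hE hE0 ?_ _ hm hm0 (surj al hfrac L pt fun l => rfl)
  intro v hv
  have hder : ∀ δ : Derivation ℂ K K, (∀ j, δ (Y j) = 0) → δ = 0 := by
    intro δ hδ
    refine W602.GT.der_eq_zero δ (Set.range (yy x p)) (inferInstanceAs (Algebra.IsAlgebraic (LL x p) K)) ?_
    rintro _ ⟨j, rfl⟩
    rw [← hYc j]
    exact hδ _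
  have h1 := nd_T (s := s) hI al hal hb Γ Y hY0 hr0 hr1 hlast hind hder (v none)
    (fun l => v (some l)) (fun i => by
      have h2 := hv i
      rw [Fintype.sum_option, hdn, hio] at h2
      rw [← h2]
      congr 1
      refine Finset.sum_congr rfl fun m _ => ?_
      rw [hds, hsum (fun j => pderiv m (TT w c s i (Γ j)))])
  funext i
  cases i with
  | none => exact h1.1
  | some l => exact congrFun h1.2 l

end

end Pool.Agent.Y196.Sp
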