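import Mathlib
import Pool.Agent.Y196.Sp.Cr
import Pool.Agent.TH314.PD.Final
import Pool.Agent.TH920.MC.Re

/-!
# Maps given by polynomials with prescribed exponents: any number of parameters
-/

set_option autoImplicit false

namespace Pool.Agent.Y196.Sp

open MvPolynomial Pool.Agent.TH314.PD
open Pool.Agent.TH920.MC (mix_exists)

noncomputable section

variable {n N d : ℕ}

/-- the substitution: `t_(g s) = X_s`, and the other variables are constants -/
def spc (c : Fin N → ℂ) (g : Fin n → Fin N) : Fin N → MvPolynomial (Fin n) ℂ :=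
  fun l => C (c l) + ∑ s, if g s = l then X s else 0

theorem spc_apply {c : Fin N → ℂ} {g : Fin n → Fin N} (hg : Function.Injective g)
    (hc : ∀ s, c (g s) = 0) (s : Fin n) : spc c g (g s) = X s := by
  unfold spc
  rw [hc s, C_0, zero_add, Finset.sum_eq_single s]
  · rw [if_pos rfl]
  · intro t _ hts
    rw [if_neg fun h => hts (hg h)]
  · intro h
    exact absurd (Finset.mem_univ _) h

theorem spc_const {c : Fin N → ℂ} {g : Fin n → Fin N} {l : Fin N} (hl : ∀ s, g s ≠ l) :
    spc c g l = C (c l) := by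
  unfold spc
  rw [Finset.sum_eq_zero fun s _ => if_neg (hl s), add_zero]

/-- the exponent after the substitution -/
def pull (g : Fin n → Fin N) (a : Fin N →₀ ℕ) : Fin n →₀ ℕ :=
  Finsupp.equivFunOnFinite.symm fun s => a (g s)

theorem pull_apply (g : Fin n → Fin N) (a : Fin N →₀ ℕ) (s : Fin n) : pull g a s = a (g s) := rfl

theorem aeval_spc_monomial {c : Fin N → ℂ} {g : Fin n → Fin N} (hg : Function.Injective g)
    (hc : ∀ s, c (g s) = 0) (a : Fin N →₀ ℕ) (z : ℂ) :
    ∃ z' : ℂ, aeval (spc c g) (monomial a z) = monomial (pull g a) z' := by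
  classical
  refine ⟨z * ∏ l ∈ (Finset.univ.image g)ᶜ, c l ^ a l, ?_⟩
  rw [aeval_monomial, algebraMap_eq, Finsupp.prod_fintype _ _ (fun _ => pow_zero _)]
  have h1 : ∏ l, spc c g l ^ a l = (∏ l ∈ Finset.univ.image g, spc c g l ^ a l) *
      ∏ l ∈ (Finset.univ.image g)ᶜ, spc c g l ^ a l :=
    (Finset.prod_mul_prod_compl _ _).symm
  have h2 : ∏ l ∈ Finset.univ.image g, spc c g l ^ a l = ∏ s, (X s : MvPolynomial (Fin n) ℂ) ^ a (g s) := by
    rw [Finset.prod_image fun s _ t _ h => hg h]
    refine Finset.prod_congr rfl fun s _ => ?_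
    rw [spc_apply hg hc]
  have h3 : ∏ l ∈ (Finset.univ.image g)ᶜ, spc c g l ^ a l =
      C (∏ l ∈ (Finset.univ.image g)ᶜ, c l ^ a l) := by
    rw [map_prod]
    refine Finset.prod_congr rfl fun l hl => ?_
    rw [Finset.mem_compl, Finset.mem_image] at hl
    push Not at hl
    rw [spc_const fun s => hl s (Finset.mem_univ _), map_pow]
  rw [h1, h2, h3, monomial_eq, Finsupp.prod_fintype _ _ (fun _ => pow_zero _), map_mul]
  simp only [pull_apply]
  ring

theorem supp_spc {c : Fin N → ℂ} {g : Fin n → Fin N} (hg : Function.Injective g)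
    (hc : ∀ s, c (g s) = 0) (p : MvPolynomial (Fin N) ℂ) {β : Fin n →₀ ℕ}
    (hβ : β ∈ (aeval (spc c g) p).support) : ∃ a ∈ p.support, β = pull g a := by
  classical
  rw [p.as_sum, map_sum] at hβ
  obtain ⟨a, ha, h1⟩ := Finset.mem_biUnion.1 (MvPolynomial.support_sum hβ)
  obtain ⟨z', hz⟩ := aeval_spc_monomial hg hc a (coeff a p)
  rw [hz] at h1
  have h2 := support_monomial_subset h1
  rw [Finset.mem_singleton] at h2
  exact ⟨a, ha, h2⟩

/-- a dominant map depends on all its parameters -/
theorem no_free (hd : 2 ≤ d) (F : MvPolynomial (Fin (n + 2)) ℂ) (hF : F.IsHomogeneous d)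
    (hsm : ∀ z : Fin (n + 2) → ℂ, (∀ i, eval z (pderiv i F) = 0) → z = 0)
    (G : Fin (n + 2) → MvPolynomial (Fin n) ℂ) (hFG : aeval G F = 0)
    (hdom : ∀ q (H : MvPolynomial (Fin (n + 2)) ℂ), H.IsHomogeneous q → aeval G H = 0 → F ∣ H)
    (s : Fin n) (hs : ∀ i, pderiv s (G i) = 0) : False := by
  classical
  have hchar : CharZero (FractionRing (MvPolynomial (Fin n) ℂ)) := algebraRat.charZero _
  obtain ⟨hfd, -⟩ := Pool.Agent.TH314.PD.bound (k := ∑ i, (G i).totalDegree) hd F hF hsm G
    (fun i => Finset.single_le_sum (f := fun i => (G i).totalDegree) (fun _ _ => Nat.zero_le _)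
      (Finset.mem_univ i)) hFG hdom
  have halg : Algebra.IsAlgebraic (ratioField fun i =>
      algebraMap (MvPolynomial (Fin n) ℂ) (FractionRing (MvPolynomial (Fin n) ℂ)) (G i))
      (FractionRing (MvPolynomial (Fin n) ℂ)) := Algebra.IsAlgebraic.of_finite _ _
  let al : MvPolynomial (Fin n) ℂ →ₐ[ℂ] FractionRing (MvPolynomial (Fin n) ℂ) :=
    IsScalarTower.toAlgHom ℂ (MvPolynomial (Fin n) ℂ) (FractionRing (MvPolynomial (Fin n) ℂ))
  have hb : IsTranscendenceBasis ℂ (fun l : Fin n => al (X l)) := by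
    have : Algebra.IsAlgebraic (MvPolynomial (Fin n) ℂ) (FractionRing (MvPolynomial (Fin n) ℂ)) :=
      (IsFractionRing.comap_isAlgebraic_iff (K := FractionRing (MvPolynomial (Fin n) ℂ))).2
        inferInstance
    exact (IsTranscendenceBasis.mvPolynomial (Fin n) ℂ).algebraMap_comp
      (A := FractionRing (MvPolynomial (Fin n) ℂ))
  obtain ⟨δ, hδ⟩ := exists_der' al hb (Pi.single s 1)
  have h1 : ∀ p : MvPolynomial (Fin n) ℂ, δ (al p) = al (pderiv s p) := by
    intro p
    rw [hδ p, Finset.sum_eq_single s]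
    · rw [Pi.single_eq_same, one_mul]
    · intro l _ hl
      rw [Pi.single_eq_of_ne hl, zero_mul]
    · intro h
      exact absurd (Finset.mem_univ _) h
  have h2 : δ = 0 := by
    refine W602.GT.der_eq_zero δ {z | ∃ i j, z =
      algebraMap (MvPolynomial (Fin n) ℂ) (FractionRing (MvPolynomial (Fin n) ℂ)) (G i) /
      algebraMap (MvPolynomial (Fin n) ℂ) (FractionRing (MvPolynomial (Fin n) ℂ)) (G j)} ?_ ?_
    · exact halg
    · rintro _ ⟨i, j, rfl⟩
      have h3 : ∀ i, δ (algebraMap (MvPolynomial (Fin n) ℂ)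
          (FractionRing (MvPolynomial (Fin n) ℂ)) (G i)) = 0 := by
        intro i
        have h4 := h1 (G i)
        rw [hs i, map_zero] at h4
        exact h4
      rw [Derivation.leibniz_div, h3 i, h3 j, smul_zero, smul_zero, sub_zero, smul_zero]
  have h3 := h1 (X s)
  rw [h2, Derivation.zero_apply, pderiv_X_self, map_one] at h3
  exact zero_ne_one h3

/-- **Any number of parameters**: some `n` of the parameters, with constants for the others, give
a dominant map. -/
theorem spc_exists (hd : 2 ≤ d) (F : MvPolynomial (Fin (n + 2)) ℂ) (hF : F.IsHomogeneous d)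
    (hsm : ∀ z : Fin (n + 2) → ℂ, (∀ i, eval z (pderiv i F) = 0) → z = 0)
    (G : Fin (n + 2) → MvPolynomial (Fin N) ℂ) (hFG : aeval G F = 0)
    (hdom : ∀ q (H : MvPolynomial (Fin (n + 2)) ℂ), H.IsHomogeneous q → aeval G H = 0 → F ∣ H) :
    ∃ (c : Fin N → ℂ) (g : Fin n → Fin N), Function.Injective g ∧ (∀ s, c (g s) = 0) ∧
      aeval (fun i => aeval (spc c g) (G i)) F = 0 ∧
      ∀ q (H : MvPolynomial (Fin (n + 2)) ℂ), H.IsHomogeneous q →
        aeval (fun i => aeval (spc c g) (G i)) H = 0 → F ∣ H := by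
  classical
  obtain ⟨c, A, f, g1, g2, g3, g4, h1, h2⟩ := mix_exists Finset.univ (by omega) hF
    (ne_zero_of_smooth hsm) G hFG hdom
  have hf : ∀ s, ∃ l, f s = some l := by
    intro s
    rcases hfs : f s with _ | l
    · exfalso
      refine no_free hd F hF hsm _ h1 h2 s fun i => ?_
      rw [chain_rule (pderiv s) (sub c A) (G i)]
      refine Finset.sum_eq_zero fun l _ => ?_
      rw [pderiv_sub, g4 s hfs l (Finset.mem_univ _), C_0, mul_zero]
    · exact ⟨l, rfl⟩
  choose g hg using hf
  have hginj : Function.Injective g := by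
    intro s t hst
    exact g2 s t (g s) (hg s) (by rw [hst]; exact hg t)
  let c' : Fin N → ℂ := fun l => if ∃ s, g s = l then 0 else c l
  have hc' : ∀ s, c' (g s) = 0 := fun s => if_pos ⟨s, rfl⟩
  have hcomp : ∀ (h : Fin N → MvPolynomial (Fin n) ℂ),
      (aeval (fun i => aeval h (G i)) :
        MvPolynomial (Fin (n + 2)) ℂ →ₐ[ℂ] MvPolynomial (Fin n) ℂ) =
        (aeval h).comp (aeval G) := by
    intro h
    apply MvPolynomial.algHom_ext
    intro i
    rw [aeval_X, AlgHom.comp_apply, aeval_X]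
  refine ⟨c', g, hginj, hc', ?_, ?_⟩
  · rw [hcomp, AlgHom.comp_apply, hFG, map_zero]
  · intro q H hH h
    refine h2 q H hH ?_
    let τ : MvPolynomial (Fin n) ℂ →ₐ[ℂ] MvPolynomial (Fin n) ℂ :=
      aeval fun s => X s + C (c (g s))
    have h3 : ∀ l, τ (spc c' g l) = sub c A l := by
      intro l
      have h4 : sub c A l = C (c l) + ∑ s, if g s = l then X s else 0 := by
        unfold sub
        congr 1
        refine Finset.sum_congr rfl fun s _ => ?_
        rw [g3 s (g s) (hg s) l]
        by_cases h5 : g s = l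
        · rw [if_pos h5.symm, if_pos h5, C_1, one_mul]
        · rw [if_neg h5, if_neg fun h => h5 h.symm, C_0, zero_mul]
      rw [h4]
      by_cases hl : ∃ s, g s = l
      · obtain ⟨s, rfl⟩ := hl
        rw [spc_apply hginj hc' s, Finset.sum_eq_single s, if_pos rfl]
        · change aeval _ (X s) = _
          rw [aeval_X, add_comm]
        · intro t _ hts
          rw [if_neg fun h => hts (hginj h)]
        · intro h
          exact absurd (Finset.mem_univ _) h
      · have h5 : ∀ s, g s ≠ l := fun s hs => hl ⟨s, hs⟩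
        rw [spc_const h5, Finset.sum_eq_zero fun s _ => if_neg (h5 s), add_zero]
        change aeval _ (C (c' l)) = _
        rw [aeval_C]
        change C (if ∃ s, g s = l then 0 else c l) = _
        rw [if_neg hl]
    have h6 : (aeval (sub c A) : MvPolynomial (Fin N) ℂ →ₐ[ℂ] MvPolynomial (Fin n) ℂ) =
        τ.comp (aeval (spc c' g)) := by
      apply MvPolynomial.algHom_ext
      intro l
      rw [aeval_X, AlgHom.comp_apply, aeval_X, h3]
    rw [hcomp, h6, AlgHom.comp_apply, AlgHom.comp_apply]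
    rw [hcomp, AlgHom.comp_apply] at h
    rw [h, map_zero]

end

end Pool.Agent.Y196.Sp
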