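import Mathlib
import Pool.Agent.TH314.PD.UB
import Pool.Agent.TH314.PD.Op
import Pool.Agent.Y196.Sp.LI
import Pool.Agent.Y196.Sp.Count

/-!
# Moving self-intersection numbers of linear systems, and a bound of Bezout type
-/

set_option autoImplicit false

namespace Pool.Agent.Y196.Sp

open MvPolynomial Pool.Agent.TH314.PD
open scoped ENNReal

noncomputable section

section defs

variable {n : ℕ}

/-- polynomials of degree at most `c` times `l`-fold products of elements of `W` -/
def BW (W : Submodule ℂ (MvPolynomial (Fin n) ℂ)) (c l : ℕ) :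
    Submodule ℂ (MvPolynomial (Fin n) ℂ) :=
  restrictTotalDegree (Fin n) ℂ c * W ^ l

/-- The moving self-intersection number of the linear system `W` -/
def mvi (W : Submodule ℂ (MvPolynomial (Fin n) ℂ)) : ℝ≥0∞ :=
  ⨆ c : ℕ, Filter.limsup
    (fun l : ℕ => (n.factorial * Module.finrank ℂ (BW W c l) : ℝ≥0∞) / (l : ℝ≥0∞) ^ n)
    Filter.atTop

theorem rtd_finite (c : ℕ) :
    Module.Finite ℂ (restrictTotalDegree (Fin n) ℂ c) := by
  have h1 : (restrictTotalDegree (Fin n) ℂ c) = restrictSupport ℂ {a : Fin n →₀ ℕ | a.sum (fun _ e => e) ≤ c} := rfl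
  rw [h1]
  have h2 : {a : Fin n →₀ ℕ | a.sum (fun _ e => e) ≤ c}.Finite := by
    refine (bd (Fin n) c).finite_toSet.subset ?_
    intro a ha
    rw [Finset.mem_coe, mem_bd]
    have h3 : a.sum (fun _ e => e) = ∑ i, a i := Finsupp.sum_fintype _ _ (fun _ => rfl)
    rw [← h3]
    exact ha
  have : Finite {a : Fin n →₀ ℕ | a.sum (fun _ e => e) ≤ c} := h2
  exact Module.Finite.of_basis (basisRestrictSupport ℂ _)

theorem BW_finite {W : Submodule ℂ (MvPolynomial (Fin n) ℂ)} (hW : W.FG) (c l : ℕ) :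
    Module.Finite ℂ (BW W c l) := by
  refine Module.Finite.iff_fg.2 ?_
  refine Submodule.FG.mul ?_ (hW.pow l)
  exact Module.Finite.iff_fg.1 (rtd_finite c)

theorem rtd_mul (c c' : ℕ) : restrictTotalDegree (Fin n) ℂ c * restrictTotalDegree (Fin n) ℂ c' ≤
    restrictTotalDegree (Fin n) ℂ (c + c') := by
  rw [Submodule.mul_le]
  intro f hf g hg
  rw [mem_restrictTotalDegree] at hf hg ⊢
  exact (totalDegree_mul f g).trans (add_le_add hf hg)

theorem rtd_mono {c c' : ℕ} (h : c ≤ c') :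
    restrictTotalDegree (Fin n) ℂ c ≤ restrictTotalDegree (Fin n) ℂ c' := by
  intro f hf
  rw [mem_restrictTotalDegree] at hf ⊢
  exact hf.trans h

theorem BW_mul (W : Submodule ℂ (MvPolynomial (Fin n) ℂ)) (c l c' l' : ℕ) :
    BW W c l * BW W c' l' ≤ BW W (c + c') (l + l') := by
  unfold BW
  rw [mul_mul_mul_comm, pow_add]
  exact mul_le_mul' (rtd_mul c c') le_rfl

theorem BW_mono (W : Submodule ℂ (MvPolynomial (Fin n) ℂ)) {c c' : ℕ} (h : c ≤ c') (l : ℕ) :
    BW W c l ≤ BW W c' l := by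
  unfold BW
  exact mul_le_mul' (rtd_mono h) le_rfl

theorem one_mem_rtd (c : ℕ) : (1 : MvPolynomial (Fin n) ℂ) ∈ restrictTotalDegree (Fin n) ℂ c := by
  rw [mem_restrictTotalDegree, totalDegree_one]
  exact Nat.zero_le _

theorem mem_BW_one (W : Submodule ℂ (MvPolynomial (Fin n) ℂ)) {u : MvPolynomial (Fin n) ℂ}
    (hu : u ∈ W) : u ∈ BW W 0 1 := by
  have h1 := Submodule.mul_mem_mul (one_mem_rtd (n := n) 0) (show u ∈ W ^ 1 by rwa [pow_one])
  rwa [one_mul] at h1

theorem mem_BW_zero (W : Submodule ℂ (MvPolynomial (Fin n) ℂ)) {c : ℕ}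
    {u : MvPolynomial (Fin n) ℂ} (hu : u ∈ restrictTotalDegree (Fin n) ℂ c) : u ∈ BW W c 0 := by
  have h1 := Submodule.mul_mem_mul hu (show (1 : MvPolynomial (Fin n) ℂ) ∈ W ^ 0 by
    rw [pow_zero]; exact Submodule.one_le.1 le_rfl)
  rwa [mul_one] at h1

end defs

section VV

variable {K : Type} [Field K] [Algebra ℂ K] {L : IntermediateField ℂ K} {n : ℕ}

/-- polynomials of degree at most `a` in the variable `none` with coefficients in the span of
`BW W c t` -/
def VV (L : IntermediateField ℂ K) (W : Submodule ℂ (MvPolynomial (Fin n) ℂ)) (a t c : ℕ) :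
    Submodule L (MvPolynomial (Option (Fin n)) L) :=
  Submodule.span L {f | ∃ r ≤ a, ∃ u ∈ BW W c t, f = X none ^ r * io L u}

variable {W : Submodule ℂ (MvPolynomial (Fin n) ℂ)}

theorem VV_mono {a a' t c c' : ℕ} (ha : a ≤ a') (hc : c ≤ c') : VV L W a t c ≤ VV L W a' t c' := by
  refine Submodule.span_mono ?_
  rintro f ⟨r, hr, u, hu, rfl⟩
  exact ⟨r, hr.trans ha, u, BW_mono W hc t hu, rfl⟩

theorem VV_mul {a t c a' t' c' : ℕ} {f g : MvPolynomial (Option (Fin n)) L}
    (hf : f ∈ VV L W a t c) (hg : g ∈ VV L W a' t' c') :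
    f * g ∈ VV L W (a + a') (t + t') (c + c') := by
  have h1 : VV L W a t c * VV L W a' t' c' ≤ VV L W (a + a') (t + t') (c + c') := by
    unfold VV
    rw [Submodule.span_mul_span]
    refine Submodule.span_mono ?_
    rintro _ ⟨_, ⟨r, hr, u, hu, rfl⟩, _, ⟨r', hr', u', hu', rfl⟩, rfl⟩
    refine ⟨r + r', add_le_add hr hr', u * u', BW_mul W c t c' t' (Submodule.mul_mem_mul hu hu'), ?_⟩
    simp only [map_mul, pow_add]
    ring
  exact h1 (Submodule.mul_mem_mul hf hg)

theorem VV_one : (1 : MvPolynomial (Option (Fin n)) L) ∈ VV L W 0 0 0 :=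
  Submodule.subset_span ⟨0, le_rfl, 1, mem_BW_zero W (one_mem_rtd 0), by
    rw [pow_zero, map_one, one_mul]⟩

theorem VV_pow {a t c : ℕ} {f : MvPolynomial (Option (Fin n)) L} (hf : f ∈ VV L W a t c) (m : ℕ) :
    f ^ m ∈ VV L W (m * a) (m * t) (m * c) := by
  induction m with
  | zero =>
    rw [pow_zero, zero_mul, zero_mul, zero_mul]
    exact VV_one
  | succ m ih =>
    rw [pow_succ, Nat.succ_mul, Nat.succ_mul, Nat.succ_mul]
    exact VV_mul ih hf

theorem VV_prod {ι : Type} (s : Finset ι) {a t c : ι → ℕ}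
    {f : ι → MvPolynomial (Option (Fin n)) L} (hf : ∀ i ∈ s, f i ∈ VV L W (a i) (t i) (c i)) :
    ∏ i ∈ s, f i ∈ VV L W (∑ i ∈ s, a i) (∑ i ∈ s, t i) (∑ i ∈ s, c i) := by
  classical
  induction s using Finset.induction_on with
  | empty =>
    rw [Finset.prod_empty, Finset.sum_empty, Finset.sum_empty, Finset.sum_empty]
    exact VV_one
  | insert i s hi ih =>
    rw [Finset.prod_insert hi, Finset.sum_insert hi, Finset.sum_insert hi, Finset.sum_insert hi]
    exact VV_mul (hf i (Finset.mem_insert_self _ _))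
      (ih fun j hj => hf j (Finset.mem_insert_of_mem hj))

theorem VV_exists (W : Submodule ℂ (MvPolynomial (Fin n) ℂ))
    (f : MvPolynomial (Option (Fin n)) L) : ∃ c, f ∈ VV L W c 0 c := by
  classical
  refine ⟨f.totalDegree, ?_⟩
  rw [f.as_sum]
  refine Submodule.sum_mem _ fun α hα => ?_
  have h1 := le_totalDegree hα
  rw [Finsupp.sum_fintype _ _ (fun _ => rfl), Fintype.sum_option] at h1
  have h2 : monomial α (coeff α f) = (coeff α f) •
      (X none ^ (α none) * io L (monomial α.some 1) : MvPolynomial (Option (Fin n)) L) := by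
    rw [smul_eq_C_mul]
    unfold io
    rw [aeval_monomial, monomial_eq, Finsupp.prod_fintype _ _ (fun _ => pow_zero _),
      Fintype.prod_option, map_one, one_mul, Finsupp.prod_fintype _ _ (fun _ => pow_zero _)]
    rfl
  rw [← f.as_sum, h2]
  refine Submodule.smul_mem _ _ (Submodule.subset_span ⟨α none, by omega, monomial α.some 1,
    mem_BW_zero W ?_, rfl⟩)
  rw [mem_restrictTotalDegree]
  refine (totalDegree_monomial_le _ _).trans ?_
  rw [Finsupp.sum_fintype _ _ (fun _ => rfl)]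
  have h3 : ∑ i, id (α.some i) = ∑ i, α (some i) := rfl
  omega

theorem VV_finrank (hW : W.FG) (a t c : ℕ) :
    Module.Finite L (VV L W a t c) ∧
      Module.finrank L (VV L W a t c) ≤ (a + 1) * Module.finrank ℂ (BW W c t) := by
  classical
  have hfin := BW_finite hW c t
  let b := Module.finBasis ℂ (BW W c t)
  let v : Fin (a + 1) × Fin (Module.finrank ℂ (BW W c t)) → MvPolynomial (Option (Fin n)) L :=
    fun x => X none ^ (x.1 : ℕ) * io L ((b x.2 : BW W c t) : MvPolynomial (Fin n) ℂ)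
  have h1 : VV L W a t c ≤ Submodule.span L (Set.range v) := by
    unfold VV
    rw [Submodule.span_le]
    rintro f ⟨r, hr, u, hu, rfl⟩
    have h2 : u = ∑ i, (b.repr ⟨u, hu⟩ i) • ((b i : BW W c t) : MvPolynomial (Fin n) ℂ) := by
      have h3 := congrArg Subtype.val (b.sum_repr ⟨u, hu⟩)
      rw [Submodule.coe_sum] at h3
      exact h3.symm
    rw [SetLike.mem_coe, h2, map_sum, Finset.mul_sum]
    refine Submodule.sum_mem _ fun i _ => ?_
    rw [map_smul, mul_smul_comm]
    have h4 : (b.repr ⟨u, hu⟩ i) • (X none ^ r * io L ((b i : BW W c t) : MvPolynomial (Fin n) ℂ) :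
        MvPolynomial (Option (Fin n)) L) = (algebraMap ℂ L (b.repr ⟨u, hu⟩ i)) •
        (X none ^ r * io L ((b i : BW W c t) : MvPolynomial (Fin n) ℂ)) := by
      rw [algebraMap_smul]
    rw [h4]
    exact Submodule.smul_mem _ _ (Submodule.subset_span ⟨(⟨r, by omega⟩, i), rfl⟩)
  have h2 : (Submodule.span L (Set.range v)).FG := Submodule.fg_span (Set.finite_range v)
  have h3 : Module.Finite L (Submodule.span L (Set.range v)) := Module.Finite.iff_fg.2 h2
  refine ⟨Submodule.finiteDimensional_of_le h1, ?_⟩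
  refine (Submodule.finrank_mono h1).trans ((finrank_range_le_card v).trans ?_)
  rw [Fintype.card_prod, Fintype.card_fin, Fintype.card_fin]

end VV

section UB

variable {K : Type} [Field K] [Algebra ℂ K] {L : IntermediateField ℂ K} {n : ℕ}

/-- the asymptotic step -/
theorem asym_mi {W : Submodule ℂ (MvPolynomial (Fin n) ℂ)} {M c : ℕ}
    (h : ∀ l : ℕ, 1 ≤ l → M * (l + (n + 1)).choose (n + 1) ≤
      (l + c + 1) * Module.finrank ℂ (BW W c l)) :
    (M : ℝ≥0∞) ≤ (n + 1) * mvi W := by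
  set x : ℕ → ℝ≥0∞ := fun l =>
    (n.factorial * Module.finrank ℂ (BW W c l) : ℝ≥0∞) / (l : ℝ≥0∞) ^ n with hx
  have h0 : Filter.limsup x Filter.atTop ≤ mvi W := le_iSup (fun c : ℕ => Filter.limsup
    (fun l : ℕ => (n.factorial * Module.finrank ℂ (BW W c l) : ℝ≥0∞) / (l : ℝ≥0∞) ^ n)
    Filter.atTop) c
  refine le_trans ?_ (mul_le_mul_right h0 _)
  by_contra hcon
  push Not at hcon
  have hn0 : ((n : ℝ≥0∞) + 1) ≠ 0 := by simp
  have hnt : ((n : ℝ≥0∞) + 1) ≠ ⊤ := by simp
  -- a number strictly between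
  obtain ⟨e, he1, he2⟩ : ∃ e : ℝ≥0∞, Filter.limsup x Filter.atTop < e ∧ (n + 1) * e < M := by
    have h1 : Filter.limsup x Filter.atTop < M / (n + 1) := by
      rw [ENNReal.lt_div_iff_mul_lt (Or.inl hn0) (Or.inl hnt), mul_comm]
      exact hcon
    obtain ⟨e, he1, he2⟩ := exists_between h1
    refine ⟨e, he1, ?_⟩
    rw [ENNReal.lt_div_iff_mul_lt (Or.inl hn0) (Or.inl hnt)] at he2
    rwa [mul_comm]
  have het : e ≠ ⊤ := by
    rintro rfl
    rw [ENNReal.mul_top hn0] at he2
    exact absurd he2 (by simp)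
  obtain ⟨e', rfl⟩ : ∃ e' : NNReal, (e' : ℝ≥0∞) = e := ⟨e.toNNReal, ENNReal.coe_toNNReal het⟩
  have hev := Filter.eventually_lt_of_limsup_lt he1
  -- real inequalities
  have hreal : ((n : ℝ) + 1) * e' < M := by
    have h1 : (((n : NNReal) + 1) * e' : NNReal) < (M : NNReal) := by
      have : (((((n : NNReal) + 1) * e' : NNReal)) : ℝ≥0∞) < ((M : NNReal) : ℝ≥0∞) := by
        push_cast
        exact he2
      exact_mod_cast this
    exact_mod_cast h1
  have h2 : ∀ᶠ l : ℕ in Filter.atTop, (M : ℝ) ≤ ((n : ℝ) + 1) * e' *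
      (1 + (c : ℝ) * (1 / ((l : ℝ) + 1))) := by
    filter_upwards [hev, Filter.eventually_ge_atTop 1] with l hl1 hl
    have hl0 : (0 : ℝ) < l := by exact_mod_cast hl
    have h3 : (n.factorial : ℝ) * Module.finrank ℂ (BW W c l) ≤ e' * (l : ℝ) ^ n := by
      have h4 : (n.factorial * Module.finrank ℂ (BW W c l) : ℝ≥0∞) ≤ e' * (l : ℝ≥0∞) ^ n := by
        have h5 := hl1.le
        rw [hx] at h5
        simp only at h5
        rwa [ENNReal.div_le_iff (by positivity) (by finiteness)] at h5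
      have h5 : ((n.factorial * Module.finrank ℂ (BW W c l) : ℕ) : NNReal) ≤
          e' * (l : NNReal) ^ n := by
        have h6 : ((((n.factorial * Module.finrank ℂ (BW W c l) : ℕ) : NNReal)) : ℝ≥0∞) ≤
            ((e' * (l : NNReal) ^ n : NNReal) : ℝ≥0∞) := by
          push_cast
          exact h4
        exact_mod_cast h6
      exact_mod_cast h5
    have h6 : M * (l + 1) ^ (n + 1) ≤
        (n + 1) * ((l + c + 1) * (n.factorial * Module.finrank ℂ (BW W c l))) := by
      calc M * (l + 1) ^ (n + 1) ≤ M * (l + 1).ascFactorial (n + 1) :=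
            Nat.mul_le_mul_left _ (Nat.pow_succ_le_ascFactorial _ _)
        _ = (n + 1).factorial * (M * (l + (n + 1)).choose (n + 1)) := by
            rw [Nat.ascFactorial_eq_factorial_mul_choose]; ring
        _ ≤ (n + 1).factorial * ((l + c + 1) * Module.finrank ℂ (BW W c l)) :=
            Nat.mul_le_mul_left _ (h l hl)
        _ = _ := by
            rw [Nat.factorial_succ]
            ring
    have h7 : (M : ℝ) * ((l : ℝ) + 1) ^ (n + 1) ≤ ((n : ℝ) + 1) * (((l : ℝ) + c + 1) *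
        ((n.factorial : ℝ) * Module.finrank ℂ (BW W c l))) := by exact_mod_cast h6
    have h8 : (M : ℝ) * ((l : ℝ) + 1) ^ (n + 1) ≤
        (((n : ℝ) + 1) * e' * (1 + (c : ℝ) * (1 / ((l : ℝ) + 1)))) * ((l : ℝ) + 1) ^ (n + 1) := by
      have e1 : ((1 : ℝ) + (c : ℝ) * (1 / ((l : ℝ) + 1))) = ((l : ℝ) + c + 1) / ((l : ℝ) + 1) := by
        field_simp
        ring
      have e2 : (((n : ℝ) + 1) * e' * (1 + (c : ℝ) * (1 / ((l : ℝ) + 1)))) *
          ((l : ℝ) + 1) ^ (n + 1) = ((n : ℝ) + 1) * (((l : ℝ) + c + 1) *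
            (e' * ((l : ℝ) + 1) ^ n)) := by
        rw [e1, pow_succ]
        field_simp
      rw [e2]
      refine h7.trans (mul_le_mul_of_nonneg_left (mul_le_mul_of_nonneg_left (h3.trans ?_) ?_) ?_)
      · exact mul_le_mul_of_nonneg_left (pow_le_pow_left₀ hl0.le (by linarith) n) e'.2
      · positivity
      · positivity
    exact le_of_mul_le_mul_right h8 (by positivity)
  have h6 := tendsto_one_div_add_atTop_nhds_zero_nat (𝕜 := ℝ)
  have h7 : Filter.Tendsto (fun l : ℕ => ((n : ℝ) + 1) * e' *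
      (1 + (c : ℝ) * (1 / ((l : ℝ) + 1)))) Filter.atTop
      (nhds (((n : ℝ) + 1) * e' * (1 + (c : ℝ) * 0))) :=
    (tendsto_const_nhds.add (tendsto_const_nhds.mul h6)).const_mul _
  rw [mul_zero, add_zero, mul_one] at h7
  have h8 := ge_of_tendsto h7 h2
  linarith

/-- **Upper bound.** -/
theorem ub_mi [CharZero K] [FiniteDimensional L K] {W : Submodule ℂ (MvPolynomial (Fin n) ℂ)}
    (hW : W.FG)
    (E : Option (Fin n) → MvPolynomial (Option (Fin n)) L) (p : Option (Fin n) → K)
    (hE : ∀ i, E i ∈ VV L W 1 1 0) (h0 : ∀ i, aeval p (E i) = 0)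
    (hnd : ∀ v : Option (Fin n) → K,
      (∀ i, ∑ j, v j * aeval p (pderiv j (E i)) = 0) → v = 0)
    (m : MvPolynomial (Option (Fin n)) L) (hm : m ∈ VV L W 0 1 0) (hm0 : aeval p m ≠ 0)
    (hsurj : ∀ z : K, ∃ g : MvPolynomial (Option (Fin n)) L, aeval p g = z) :
    (Module.finrank L K : ℝ≥0∞) ≤ (n + 1) * mvi W := by
  classical
  let b := Module.finBasis L K
  choose g hg using fun i => hsurj (b i)
  have hli : LinearIndependent L (fun i => aeval p (g i)) := by
    have h1 : (fun i => aeval p (g i)) = b := funext hg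
    rw [h1]
    exact b.linearIndependent
  choose cc hcc using fun i => VV_exists W (g i)
  set c := ∑ i, cc i with hc
  have hgc : ∀ i, g i ∈ VV L W c 0 c := fun i =>
    VV_mono (Finset.single_le_sum (f := cc) (fun _ _ => Nat.zero_le _) (Finset.mem_univ i))
      (Finset.single_le_sum (f := cc) (fun _ _ => Nat.zero_le _) (Finset.mem_univ i)) (hcc i)
  refine asym_mi (c := c) fun l hl => ?_
  have hLI := li_m E p h0 hnd g hli (fun a => m ^ (l - a.degree)) (fun a => by
    rw [map_pow]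
    exact pow_ne_zero _ hm0)
  obtain ⟨hfin, hrank⟩ := VV_finrank (L := L) hW (l + c) l c
  let h' : Fin (Module.finrank L K) × bd (Option (Fin n)) l → VV L W (l + c) l c := fun x =>
    ⟨g x.1 * (∏ i, E i ^ (x.2.1 i)) * m ^ (l - x.2.1.degree), by
      have hα : ∑ i, x.2.1 i ≤ l := mem_bd.1 x.2.2
      have hd : x.2.1.degree = ∑ i, x.2.1 i := Finsupp.degree_eq_sum _
      have h1 : (∏ i, E i ^ (x.2.1 i)) ∈
          VV L W (∑ i, x.2.1 i * 1) (∑ i, x.2.1 i * 1) (∑ i, x.2.1 i * 0) :=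
        VV_prod _ fun i _ => VV_pow (hE i) _
      have h2 := VV_mul (VV_mul (hgc x.1) h1) (VV_pow hm (l - x.2.1.degree))
      simp only [mul_one, mul_zero, Finset.sum_const_zero, add_zero, zero_add] at h2
      have h3 : ∑ i, x.2.1 i + (l - x.2.1.degree) = l := by omega
      rw [h3] at h2
      exact VV_mono (by omega) le_rfl h2⟩
  have hli' : LinearIndependent L h' := by
    refine LinearIndependent.of_comp (Submodule.subtype _) ?_
    have h1 : (Submodule.subtype (VV L W (l + c) l c)) ∘ h' =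
        (fun x : Fin (Module.finrank L K) × (Option (Fin n) →₀ ℕ) =>
          g x.1 * (∏ i, E i ^ (x.2 i)) * m ^ (l - x.2.degree)) ∘
        (fun x : Fin (Module.finrank L K) × bd (Option (Fin n)) l => (x.1, x.2.1)) := rfl
    rw [h1]
    refine hLI.comp _ ?_
    rintro ⟨t, α⟩ ⟨t', α'⟩ hx
    simp only [Prod.mk.injEq] at hx
    exact Prod.ext hx.1 (Subtype.ext hx.2)
  have h1 := hli'.fintype_card_le_finrank
  rw [Fintype.card_prod, Fintype.card_coe, card_bd, Fintype.card_fin, Fintype.card_option,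
    Fintype.card_fin] at h1
  refine h1.trans (hrank.trans (le_of_eq ?_))
  rfl

end UB

end

end Pool.Agent.Y196.Sp
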