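import Mathlib
import Pool.Agent.TH920.MA.ND2
import Pool.Agent.Y196.Sp.MI
import Pool.Agent.Y196.Sp.Cr
import Pool.Agent.TH314.PD.Final

/-!
# The bound by the moving self-intersection number of the system of derivatives
-/

set_option autoImplicit false

namespace Pool.Agent.Y196.Sp

open MvPolynomial Pool.Agent.TH314.PD Pool.Agent.TH920.MA
open scoped ENNReal

noncomputable section

variable {n : ℕ}

/-- a first-order differential operator with polynomial coefficients -/
def DD (a : Option (Fin n) → MvPolynomial (Fin n) ℂ)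
    (b : Option (Fin n) → Fin n → MvPolynomial (Fin n) ℂ) (i : Option (Fin n))
    (g : MvPolynomial (Fin n) ℂ) : MvPolynomial (Fin n) ℂ :=
  a i * g + ∑ l, b i l * pderiv l g

/-- the operators are linearly independent over the rational functions -/
def IndD (a : Option (Fin n) → MvPolynomial (Fin n) ℂ)
    (b : Option (Fin n) → Fin n → MvPolynomial (Fin n) ℂ) : Prop :=
  (Matrix.of fun i j => Option.elim j (a i) (b i) :
    Matrix (Option (Fin n)) (Option (Fin n)) (MvPolynomial (Fin n) ℂ)).det ≠ 0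

variable {a : Option (Fin n) → MvPolynomial (Fin n) ℂ}
  {b : Option (Fin n) → Fin n → MvPolynomial (Fin n) ℂ}
variable {K : Type} [Field K] [Algebra ℂ K]

theorem IndD.apply (h : IndD a b) (al : MvPolynomial (Fin n) ℂ →ₐ[ℂ] K)
    (hal : Function.Injective al) (e0 : K) (e : Fin n → K)
    (he : ∀ i, al (a i) * e0 + ∑ l, al (b i l) * e l = 0) :
    e0 = 0 ∧ e = 0 := by
  classical
  have h1 : (al.toRingHom.mapMatrix (Matrix.of fun i j => Option.elim j (a i) (b i) :
      Matrix (Option (Fin n)) (Option (Fin n)) (MvPolynomial (Fin n) ℂ))).det ≠ 0 := by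
    rw [← RingHom.map_det]
    exact (map_ne_zero_iff _ hal).2 h
  let v : Option (Fin n) → K := fun j => Option.elim j e0 e
  have h2 : (al.toRingHom.mapMatrix (Matrix.of fun i j => Option.elim j (a i) (b i) :
      Matrix (Option (Fin n)) (Option (Fin n)) (MvPolynomial (Fin n) ℂ))).mulVec v = 0 := by
    funext i
    rw [Pi.zero_apply, ← he i]
    unfold Matrix.mulVec dotProduct
    rw [Fintype.sum_option]
    rfl
  have h3 : v = 0 := by
    by_contra hv
    exact h1 (Matrix.exists_mulVec_eq_zero_iff.1 ⟨v, hv, h2⟩)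
  exact ⟨congrFun h3 none, funext fun l => congrFun h3 (some l)⟩

/-- nondegeneracy -/
theorem nd_D [CharZero K] (hI : IndD a b) (al : MvPolynomial (Fin n) ℂ →ₐ[ℂ] K)
    (hal : Function.Injective al) (hb : IsTranscendenceBasis ℂ (fun l : Fin n => al (X l)))
    (Γ : Fin (n + 2) → MvPolynomial (Fin n) ℂ) (Y : Fin (n + 2) → K) (hY0 : Y 0 = 1)
    (hr0 : ∑ j, Y j * al (Γ j) = 0) (hr1 : ∀ l, ∑ j, Y j * al (pderiv l (Γ j)) = 0)
    (hlast : Γ (Fin.last (n + 1)) ≠ 0)
    (hind : ∀ (a : K) (w : Fin n → K),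
      (∀ j, a * al (Γ j) + ∑ l, w l * al (pderiv l (Γ j)) = 0) → a = 0 ∧ w = 0)
    (hder : ∀ δ : Derivation ℂ (K) (K), (∀ j, δ (Y j) = 0) → δ = 0)
    (μ : K) (v : Fin n → K)
    (h : ∀ i : Option (Fin n), μ * al (DD a b i (Γ (Fin.last (n + 1)))) +
      ∑ m, v m * ∑ j, Y j * al (pderiv m (DD a b i (Γ j))) = 0) : μ = 0 ∧ v = 0 := by
  classical
  -- the derivative of the equations
  have h1 : ∀ i m, ∑ j, Y j * al (pderiv m (DD a b i (Γ j))) =
      ∑ l, al (b i l) * ∑ j, Y j * al (pderiv m (pderiv l (Γ j))) := by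
    intro i m
    have h2 : ∀ j, Y j * al (pderiv m (DD a b i (Γ j))) =
        al (pderiv m (a i)) * (Y j * al (Γ j)) + al (a i) * (Y j * al (pderiv m (Γ j))) +
          (∑ l, al (pderiv m (b i l)) * (Y j * al (pderiv l (Γ j))) +
          ∑ l, al (b i l) * (Y j * al (pderiv m (pderiv l (Γ j))))) := by
      intro j
      have h3 : pderiv m (DD a b i (Γ j)) = pderiv m (a i) * Γ j + a i * pderiv m (Γ j) +
          (∑ l, pderiv m (b i l) * pderiv l (Γ j) + ∑ l, b i l * pderiv m (pderiv l (Γ j))) := by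
        unfold DD
        rw [map_add, map_sum, pderiv_mul, ← Finset.sum_add_distrib]
        congr 1
        refine Finset.sum_congr rfl fun l _ => ?_
        rw [pderiv_mul]
      rw [h3]
      simp only [map_add, map_mul, map_sum, Finset.mul_sum, mul_add]
      congr 1
      · congr 1
        · ring
        · ring
      · congr 1
        · exact Finset.sum_congr rfl fun l _ => by ring
        · exact Finset.sum_congr rfl fun l _ => by ring
    rw [Finset.sum_congr rfl fun j _ => h2 j, Finset.sum_add_distrib, Finset.sum_add_distrib,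
      Finset.sum_add_distrib, ← Finset.mul_sum, ← Finset.mul_sum, hr0, hr1 m, mul_zero, mul_zero,
      add_zero, zero_add]
    have h5 : ∑ j, ∑ l, al (pderiv m (b i l)) * (Y j * al (pderiv l (Γ j))) = 0 := by
      rw [Finset.sum_comm]
      refine Finset.sum_eq_zero fun l _ => ?_
      rw [← Finset.mul_sum, hr1 l, mul_zero]
    rw [h5, zero_add, Finset.sum_comm]
    refine Finset.sum_congr rfl fun l _ => ?_
    rw [← Finset.mul_sum]
  have h2 : ∀ i, al (a i) * (μ * al (Γ (Fin.last (n + 1)))) +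
      ∑ l, al (b i l) * (μ * al (pderiv l (Γ (Fin.last (n + 1)))) +
        ∑ m, v m * ∑ j, Y j * al (pderiv m (pderiv l (Γ j)))) = 0 := by
    intro i
    have h3 := h i
    rw [Finset.sum_congr rfl fun m _ => by rw [h1 i m]] at h3
    have h5 : al (DD a b i (Γ (Fin.last (n + 1)))) = al (a i) * al (Γ (Fin.last (n + 1))) +
        ∑ l, al (b i l) * al (pderiv l (Γ (Fin.last (n + 1)))) := by
      unfold DD
      simp only [map_add, map_mul, map_sum]
    have h6 : ∑ m, v m * ∑ l, al (b i l) * ∑ j, Y j * al (pderiv m (pderiv l (Γ j))) =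
        ∑ l, al (b i l) * ∑ m, v m * ∑ j, Y j * al (pderiv m (pderiv l (Γ j))) := by
      have h7 : ∀ m, v m * ∑ l, al (b i l) * ∑ j, Y j * al (pderiv m (pderiv l (Γ j))) =
          ∑ l, al (b i l) * (v m * ∑ j, Y j * al (pderiv m (pderiv l (Γ j)))) := by
        intro m
        rw [Finset.mul_sum]
        exact Finset.sum_congr rfl fun l _ => by ring
      rw [Finset.sum_congr rfl fun m _ => h7 m, Finset.sum_comm]
      refine Finset.sum_congr rfl fun l _ => ?_
      rw [← Finset.mul_sum]
    rw [h5, h6, mul_add, Finset.mul_sum, add_assoc, ← Finset.sum_add_distrib] at h3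
    refine Eq.trans ?_ h3
    congr 1
    · ring
    · exact Finset.sum_congr rfl fun l _ => by ring
  obtain ⟨h3, h4⟩ := hI.apply al hal _ _ h2
  have hμ : μ = 0 := by
    rcases mul_eq_zero.1 h3 with h5 | h5
    · exact h5
    · exact absurd h5 ((map_ne_zero_iff al hal).2 hlast)
  refine ⟨hμ, ?_⟩
  subst hμ
  refine nd_hess al hb Γ Y hY0 hr0 hr1 hind hder v fun l => ?_
  have h5 := congrFun h4 l
  rw [Pi.zero_apply, zero_mul, zero_add] at h5
  exact h5

/-- **Upper bound.** -/
theorem upper_mi [CharZero K] (hI : IndD a b) (W V : Submodule ℂ (MvPolynomial (Fin n) ℂ))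
    (hW : W.FG) (hVW : ∀ g ∈ V, ∀ i, DD a b i g ∈ W)
    (al : MvPolynomial (Fin n) ℂ →ₐ[ℂ] K)
    (hal : Function.Injective al) (hb : IsTranscendenceBasis ℂ (fun l : Fin n => al (X l)))
    (hfrac : ∀ z : K, ∃ a b, z = al a / al b)
    (Γ : Fin (n + 2) → MvPolynomial (Fin n) ℂ) (hΓ : ∀ j, Γ j ∈ V)
    (x : Fin (n + 2) → K) (p : Fin (n + 1) → MvPolynomial (Fin (n + 2)) ℂ)
    [Algebra.IsAlgebraic (LL x p) K]
    (Y : Fin (n + 2) → K) (hY0 : Y 0 = 1) (hYc : ∀ j : Fin (n + 1), Y j.castSucc = yy x p j)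
    (hr0 : ∑ j, Y j * al (Γ j) = 0) (hr1 : ∀ l, ∑ j, Y j * al (pderiv l (Γ j)) = 0)
    (hlast : Γ (Fin.last (n + 1)) ≠ 0)
    (hind : ∀ (a : K) (w : Fin n → K),
      (∀ j, a * al (Γ j) + ∑ l, w l * al (pderiv l (Γ j)) = 0) → a = 0 ∧ w = 0) :
    (Module.finrank (LL x p) K : ℝ≥0∞) ≤ (n + 1) * mvi W := by
  classical
  have hfd : FiniteDimensional (LL x p) K := finite_dim al hfrac (LL x p)
  set L := LL x p with hL
  let yL : Fin (n + 1) → L := fun j => ⟨yy x p j, IntermediateField.subset_adjoin _ _ ⟨j, rfl⟩⟩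
  let E : Option (Fin n) → MvPolynomial (Option (Fin n)) L := fun i =>
    (∑ j : Fin (n + 1), C (yL j) * io L (DD a b i (Γ j.castSucc))) +
      X none * io L (DD a b i (Γ (Fin.last (n + 1))))
  let pt : Option (Fin n) → K := fun i => match i with
    | none => Y (Fin.last (n + 1))
    | some l => al (X l)
  have hio : ∀ g : MvPolynomial (Fin n) ℂ, aeval pt (io L g) = al g := by
    intro g
    rw [aeval_io]
    have h1 : (aeval (fun l => pt (some l)) : MvPolynomial (Fin n) ℂ →ₐ[ℂ] K) = al := by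
      apply MvPolynomial.algHom_ext
      intro l
      rw [aeval_X]
    rw [h1]
  have hsum : ∀ f : Fin (n + 2) → MvPolynomial (Fin n) ℂ,
      aeval pt ((∑ j : Fin (n + 1), C (yL j) * io L (f j.castSucc)) +
        X none * io L (f (Fin.last (n + 1)))) = ∑ j, Y j * al (f j) := by
    intro f
    have h2 : ∀ j : Fin (n + 1), aeval pt (C (yL j) * io L (f j.castSucc)) =
        Y j.castSucc * al (f j.castSucc) := by
      intro j
      rw [map_mul, aeval_C, hio, hYc]
      rfl
    rw [map_add, map_sum, map_mul, aeval_X, hio, Finset.sum_congr rfl fun j _ => h2 j]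
    exact (Fin.sum_univ_castSucc (fun j => Y j * al (f j))).symm
  have hE0 : ∀ i, aeval pt (E i) = 0 := by
    intro i
    have h0 : aeval pt (E i) = ∑ j, Y j * al (DD a b i (Γ j)) := hsum (fun j => DD a b i (Γ j))
    rw [h0]
    have h1 : ∀ j, Y j * al (DD a b i (Γ j)) = al (a i) * (Y j * al (Γ j)) +
          ∑ l, al (b i l) * (Y j * al (pderiv l (Γ j))) := by
      intro j
      unfold DD
      simp only [map_add, map_mul, map_sum, Finset.mul_sum, mul_add]
      congr 1
      · ring
      · exact Finset.sum_congr rfl fun l _ => by ring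
    rw [Finset.sum_congr rfl fun j _ => h1 j, Finset.sum_add_distrib,
      ← Finset.mul_sum, hr0, mul_zero, zero_add, Finset.sum_comm, Finset.sum_eq_zero]
    intro l _
    rw [← Finset.mul_sum, hr1 l, mul_zero]
  have hdn : ∀ i, pderiv none (E i) = io L (DD a b i (Γ (Fin.last (n + 1)))) := by
    intro i
    change pderiv none ((∑ j : Fin (n + 1), C (yL j) * io L (DD a b i (Γ j.castSucc))) +
      X none * io L (DD a b i (Γ (Fin.last (n + 1))))) = _
    rw [map_add, map_sum, pderiv_mul, pderiv_X_self, pderiv_none_io, mul_zero, add_zero, one_mul]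
    rw [Finset.sum_eq_zero, zero_add]
    intro j _
    rw [pderiv_C_mul, pderiv_none_io, mul_zero]
  have hds : ∀ i m, pderiv (some m) (E i) =
      (∑ j : Fin (n + 1), C (yL j) * io L (pderiv m (DD a b i (Γ j.castSucc)))) +
        X none * io L (pderiv m (DD a b i (Γ (Fin.last (n + 1))))) := by
    intro i m
    change pderiv (some m) ((∑ j : Fin (n + 1), C (yL j) * io L (DD a b i (Γ j.castSucc))) +
      X none * io L (DD a b i (Γ (Fin.last (n + 1))))) = _
    rw [map_add, map_sum, pderiv_mul, pderiv_X_of_ne (by simp), zero_mul, zero_add, pderiv_some_io]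
    congr 1
    refine Finset.sum_congr rfl fun j _ => ?_
    rw [pderiv_C_mul, pderiv_some_io]
  have hioV : ∀ u ∈ W, io L u ∈ VV L W 0 1 0 := fun u hu =>
    Submodule.subset_span ⟨0, le_rfl, u, mem_BW_one W hu, by rw [pow_zero, one_mul]⟩
  have hE : ∀ i, E i ∈ VV L W 1 1 0 := by
    intro i
    refine Submodule.add_mem _ (Submodule.sum_mem _ fun j _ => ?_) ?_
    · rw [C_mul']
      exact Submodule.smul_mem _ _ (VV_mono (Nat.zero_le 1) le_rfl (hioV _ (hVW _ (hΓ _) i)))
    · exact Submodule.subset_span ⟨1, le_rfl, _, mem_BW_one W (hVW _ (hΓ _) i), by rw [pow_one]⟩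
  -- a nonzero element
  obtain ⟨i0, hi0⟩ : ∃ i, DD a b i (Γ (Fin.last (n + 1))) ≠ 0 := by
    by_contra hcon
    push Not at hcon
    have h1 := hI.apply al hal (al (Γ (Fin.last (n + 1))))
      (fun l => al (pderiv l (Γ (Fin.last (n + 1))))) (fun i => by
        have h2 := congrArg al (hcon i)
        unfold DD at h2
        simpa only [map_add, map_mul, map_sum, map_zero] using h2)
    exact (map_ne_zero_iff al hal).2 hlast h1.1
  refine ub_mi hW E pt hE hE0 ?_ _ (hioV _ (hVW _ (hΓ _) i0)) (by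
    rw [hio]
    exact (map_ne_zero_iff al hal).2 hi0) (surj al hfrac L pt fun l => rfl)
  intro v hv
  have hder : ∀ δ : Derivation ℂ K K, (∀ j, δ (Y j) = 0) → δ = 0 := by
    intro δ hδ
    refine W602.GT.der_eq_zero δ (Set.range (yy x p)) (inferInstanceAs (Algebra.IsAlgebraic (LL x p) K)) ?_
    rintro _ ⟨j, rfl⟩
    rw [← hYc j]
    exact hδ _
  have h1 := nd_D hI al hal hb Γ Y hY0 hr0 hr1 hlast hind hder (v none)
    (fun l => v (some l)) (fun i => by
      have h2 := hv i
      rw [Fintype.sum_option, hdn, hio] at h2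
      rw [← h2]
      congr 1
      refine Finset.sum_congr rfl fun m _ => ?_
      rw [hds, hsum (fun j => pderiv m (DD a b i (Γ j)))])
  funext i
  cases i with
  | none => exact h1.1
  | some l => exact congrFun h1.2 l

/-- the space of polynomials all whose images are in `W` -/
def VD (a : Option (Fin n) → MvPolynomial (Fin n) ℂ)
    (b : Option (Fin n) → Fin n → MvPolynomial (Fin n) ℂ)
    (W : Submodule ℂ (MvPolynomial (Fin n) ℂ)) : Submodule ℂ (MvPolynomial (Fin n) ℂ) where
  carrier := {g | ∀ i, DD a b i g ∈ W}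
  add_mem' := by
    intro g h hg hh i
    have h1 : DD a b i (g + h) = DD a b i g + DD a b i h := by
      unfold DD
      simp only [map_add, mul_add, Finset.sum_add_distrib]
      ring
    rw [h1]
    exact W.add_mem (hg i) (hh i)
  zero_mem' := by
    intro i
    have h1 : DD a b i 0 = 0 := by
      unfold DD
      simp
    rw [h1]
    exact W.zero_mem
  smul_mem' := by
    intro z g hg i
    have h1 : DD a b i (z • g) = z • DD a b i g := by
      unfold DD
      simp only [Derivation.map_smul, mul_smul_comm, smul_add, Finset.smul_sum]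
    rw [h1]
    exact W.smul_mem z (hg i)

/-- **The bound** by the moving self-intersection number. -/
theorem bound_mi {d : ℕ} (hd : 2 ≤ d) (F : MvPolynomial (Fin (n + 2)) ℂ) (hF : F.IsHomogeneous d)
    (hsm : ∀ z : Fin (n + 2) → ℂ, (∀ i, eval z (pderiv i F) = 0) → z = 0)
    (hI : IndD a b) (W : Submodule ℂ (MvPolynomial (Fin n) ℂ)) (hW : W.FG)
    (G : Fin (n + 2) → MvPolynomial (Fin n) ℂ)
    (hG : ∀ j i, DD a b i (G j) ∈ W) (hFG : aeval G F = 0)
    (hdom : ∀ q (H : MvPolynomial (Fin (n + 2)) ℂ), H.IsHomogeneous q → aeval G H = 0 → F ∣ H) :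
    FiniteDimensional (ratioField fun i =>
        algebraMap (MvPolynomial (Fin n) ℂ) (FractionRing (MvPolynomial (Fin n) ℂ)) (G i))
        (FractionRing (MvPolynomial (Fin n) ℂ)) ∧
      (Module.finrank (ratioField fun i =>
        algebraMap (MvPolynomial (Fin n) ℂ) (FractionRing (MvPolynomial (Fin n) ℂ)) (G i))
        (FractionRing (MvPolynomial (Fin n) ℂ)) : ℝ≥0∞) * (d * (d - 1) ^ n : ℕ) ≤
        (n + 1) * mvi W := by
  have hchar : CharZero (FractionRing (MvPolynomial (Fin n) ℂ)) := algebraRat.charZero _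
  obtain ⟨hfd, -⟩ := Pool.Agent.TH314.PD.bound (k := ∑ i, (G i).totalDegree) hd F hF hsm G
    (fun i => Finset.single_le_sum (f := fun i => (G i).totalDegree) (fun _ _ => Nat.zero_le _)
      (Finset.mem_univ i)) hFG hdom
  refine ⟨hfd, ?_⟩
  by_cases htop : ((n : ℝ≥0∞) + 1) * mvi W = ⊤
  · rw [htop]
    exact le_top
  · obtain ⟨-, h1⟩ := bound_gen hd F hF hsm (VD a b W) (B := (((n : ℝ≥0∞) + 1) * mvi W).toReal)
      (fun al hal hb hfrac Γ hΓ x p halg Y hY0 hYc hr0 hr1 hlast hind => by
        have h2 := upper_mi hI W (VD a b W) hW (fun g hg i => hg i) al hal hb hfrac Γ hΓ x p Y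
          hY0 hYc hr0 hr1 hlast hind
        have h3 := ENNReal.toReal_mono htop h2
        rwa [ENNReal.toReal_natCast] at h3) G (fun j => hG j) hFG hdom
    rw [← ENNReal.ofReal_toReal htop, ← Nat.cast_mul]
    rw [← Nat.cast_mul] at h1
    have h2 := ENNReal.ofReal_le_ofReal h1
    rwa [ENNReal.ofReal_natCast] at h2

end

end Pool.Agent.Y196.Sp
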