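import Mathlib
import Pool.Agent.H160R3.Tri1

/-!
# Volume of a simplex with truncated corners
-/

set_option autoImplicit false

namespace Pool.Agent.Y196.Sp

open MeasureTheory
open scoped ENNReal

/-- volume of the closed simplex (proof taken from Pool.Agent.W493.AM.SE1) -/
theorem vol_closed (n : ℕ) : ∀ r : ℝ, 0 ≤ r →
    volume {c : Fin n → ℝ | (∀ i, 0 ≤ c i) ∧ ∑ i, c i ≤ r} =
      ENNReal.ofReal (r ^ n / (n.factorial : ℝ)) := by
  induction n with
  | zero =>
    intro r hr
    have : {c : Fin 0 → ℝ | (∀ i, 0 ≤ c i) ∧ ∑ i, c i ≤ r} = Set.univ := by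
      ext c; simp [hr]
    rw [this]
    simp [MeasureTheory.Measure.volume_pi_eq_dirac (0 : Fin 0 → ℝ)]
  | succ n ih =>
    intro r hr
    let T : Set (ℝ × (Fin n → ℝ)) := {q | 0 ≤ q.1 ∧ (∀ i, 0 ≤ q.2 i) ∧ q.1 + ∑ i, q.2 i ≤ r}
    have hT : MeasurableSet T := by
      have h1 : IsClosed T := by
        have e1 : T = {q | 0 ≤ q.1} ∩ (⋂ i, {q : ℝ × (Fin n → ℝ) | 0 ≤ q.2 i}) ∩
            {q | q.1 + ∑ i, q.2 i ≤ r} := by
          ext q; simp [T, and_assoc]
        rw [e1]
        refine IsClosed.inter (IsClosed.inter ?_ ?_) ?_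
        · exact isClosed_le continuous_const continuous_fst
        · refine isClosed_iInter fun i => ?_
          exact isClosed_le continuous_const ((continuous_apply i).comp continuous_snd)
        · refine isClosed_le ?_ continuous_const
          fun_prop
      exact h1.measurableSet
    have hmp := MeasureTheory.volume_preserving_piFinSuccAbove (fun _ : Fin (n + 1) => ℝ) 0
    have hpre : {c : Fin (n + 1) → ℝ | (∀ i, 0 ≤ c i) ∧ ∑ i, c i ≤ r} =
        (MeasurableEquiv.piFinSuccAbove (fun _ : Fin (n + 1) => ℝ) 0) ⁻¹' T := by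
      ext c
      simp only [Set.mem_ofPred_eq, Set.mem_preimage, T, MeasurableEquiv.piFinSuccAbove_apply,
        Fin.insertNthEquiv_zero]
      rw [Fin.forall_fin_succ, Fin.sum_univ_succ, and_assoc]
      rfl
    rw [hpre, hmp.measure_preimage hT.nullMeasurableSet]
    rw [Measure.volume_eq_prod, Measure.prod_apply hT]
    have hsec : ∀ t : ℝ, volume (Prod.mk t ⁻¹' T) =
        (Set.Icc 0 r).indicator (fun t => ENNReal.ofReal ((r - t) ^ n / (n.factorial : ℝ))) t := by
      intro t
      by_cases ht : t ∈ Set.Icc 0 r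
      · rw [Set.indicator_of_mem ht, ← ih (r - t) (by linarith [ht.2])]
        congr 1
        ext c
        simp only [Set.mem_preimage, T, Set.mem_ofPred_eq]
        constructor
        · rintro ⟨_, h2, h3⟩
          exact ⟨h2, by linarith⟩
        · rintro ⟨h2, h3⟩
          exact ⟨ht.1, h2, by linarith⟩
      · rw [Set.indicator_of_notMem ht]
        have : Prod.mk t ⁻¹' T = ∅ := by
          ext c
          simp only [Set.mem_preimage, T, Set.mem_ofPred_eq, Set.mem_empty_iff_false, iff_false]
          rintro ⟨h1, h2, h3⟩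
          apply ht
          refine ⟨h1, ?_⟩
          have : 0 ≤ ∑ i, c i := Finset.sum_nonneg fun i _ => (h2 i)
          linarith
        rw [this, measure_empty]
    simp_rw [hsec]
    rw [lintegral_indicator measurableSet_Icc]
    have hint : IntervalIntegrable (fun t : ℝ => (r - t) ^ n / (n.factorial : ℝ)) volume 0 r := by
      apply Continuous.intervalIntegrable
      fun_prop
    have hIoc : IntegrableOn (fun t : ℝ => (r - t) ^ n / (n.factorial : ℝ)) (Set.Icc 0 r) volume :=
      ((intervalIntegrable_iff_integrableOn_Icc_of_le hr).1 hint)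
    rw [← ofReal_integral_eq_lintegral_ofReal hIoc]
    · congr 1
      rw [integral_Icc_eq_integral_Ioc, ← intervalIntegral.integral_of_le hr]
      have : ∫ t in (0:ℝ)..r, (r - t) ^ n / (n.factorial : ℝ) =
          (∫ t in (0:ℝ)..r, t ^ n) / (n.factorial : ℝ) := by
        rw [intervalIntegral.integral_div]
        congr 1
        have := intervalIntegral.integral_comp_sub_left (fun t : ℝ => t ^ n) r (a := 0) (b := r)
        rw [this]; simp
      rw [this, integral_pow, Nat.factorial_succ]
      push_cast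
      have h1 : (n.factorial : ℝ) ≠ 0 := by exact_mod_cast n.factorial_ne_zero
      have h2 : (n : ℝ) + 1 ≠ 0 := by positivity
      field_simp
      simp
    · rw [Filter.EventuallyLE, ae_restrict_iff' measurableSet_Icc]
      refine Filter.Eventually.of_forall fun t ht => ?_
      simp only [Pi.zero_apply]
      have : 0 ≤ r - t := by linarith [ht.2]
      positivity

noncomputable section

variable {n : ℕ}

/-- the truncated corners of the simplex of size `K` -/
def crn (K : ℝ) (b : Option (Fin n) → ℝ) : Option (Fin n) → Set (Fin n → ℝ)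
  | none => {x | (∀ l, 0 ≤ x l) ∧ ∑ l, x l ≤ K ∧ ∑ l, x l < K - b none}
  | some m => {x | (∀ l, 0 ≤ x l) ∧ ∑ l, x l ≤ K ∧ b (some m) < x m}

/-- the simplex with truncated corners -/
def trc (K : ℝ) (b : Option (Fin n) → ℝ) : Set (Fin n → ℝ) :=
  {x | (∀ l, 0 ≤ x l) ∧ ∑ l, x l ≤ K ∧ K - b none ≤ ∑ l, x l ∧ ∀ l, x l ≤ b (some l)}

theorem measurable_crn (K : ℝ) (b : Option (Fin n) → ℝ) (i : Option (Fin n)) :
    MeasurableSet (crn K b i) := by
  have h1 : MeasurableSet {x : Fin n → ℝ | ∀ l, 0 ≤ x l} := by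
    have : {x : Fin n → ℝ | ∀ l, 0 ≤ x l} = ⋂ l, {x : Fin n → ℝ | 0 ≤ x l} := by
      ext x; simp
    rw [this]
    exact MeasurableSet.iInter fun l => measurableSet_le measurable_const (measurable_pi_apply l)
  have h2 : Measurable fun x : Fin n → ℝ => ∑ l, x l :=
    Finset.measurable_sum _ fun l _ => measurable_pi_apply l
  cases i with
  | none => exact h1.inter ((measurableSet_le h2 measurable_const).inter
      (measurableSet_lt h2 measurable_const))
  | some m => exact h1.inter ((measurableSet_le h2 measurable_const).inter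
      (measurableSet_lt measurable_const (measurable_pi_apply m)))

theorem crn_subset (K : ℝ) (b : Option (Fin n) → ℝ) (i : Option (Fin n)) :
    crn K b i ⊆ {x | (∀ l, 0 ≤ x l) ∧ ∑ l, x l ≤ K} := by
  intro x hx
  cases i with
  | none => exact ⟨hx.1, hx.2.1⟩
  | some m => exact ⟨hx.1, hx.2.1⟩

/-- the volume of an intersection of corners -/
theorem vol_crn (hn : n ≠ 0) {K : ℝ} (hK : 0 ≤ K) {b : Option (Fin n) → ℝ} (hb : ∀ i, 0 ≤ b i)
    (u : Finset (Option (Fin n))) (hu : u.Nonempty) :
    volume.real (⋂ i ∈ u, crn K b i) =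
      max 0 (K - ∑ i ∈ u, b i) ^ n / n.factorial := by
  classical
  set r : ℝ := K - ∑ i ∈ u, b i with hr
  set β : Fin n → ℝ := fun l => if some l ∈ u then b (some l) else 0 with hβ
  have hβ0 : ∀ l, 0 ≤ β l := by
    intro l
    simp only [hβ]
    split_ifs
    · exact hb _
    · exact le_rfl
  have hsum : ∑ i ∈ u, b i = (if none ∈ u then b none else 0) + ∑ l, β l := by
    have h1 : ∑ i ∈ u, b i = ∑ i, if i ∈ u then b i else 0 := by
      rw [← Finset.sum_filter, Finset.filter_mem_eq_inter, Finset.univ_inter]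
    rw [h1, Fintype.sum_option]
  have hsub : (⋂ i ∈ u, crn K b i) ⊆
      (fun x => x + (-β)) ⁻¹' {c : Fin n → ℝ | (∀ i, 0 ≤ c i) ∧ ∑ i, c i ≤ r} := by
    intro x hx
    simp only [Set.mem_iInter] at hx
    obtain ⟨i0, hi0⟩ := hu
    have h0 := crn_subset K b i0 (hx i0 hi0)
    have h1 : ∀ l, β l ≤ x l := by
      intro l
      simp only [hβ]
      split_ifs with h
      · exact (hx (some l) h).2.2.le
      · exact h0.1 l
    have h2 : ∑ l, x l ≤ K - if none ∈ u then b none else 0 := by
      split_ifs with h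
      · exact (hx none h).2.2.le
      · rw [sub_zero]
        exact h0.2
    refine ⟨fun l => ?_, ?_⟩
    · change (0 : ℝ) ≤ x l + -β l
      linarith [h1 l]
    · simp only [Pi.add_apply, Pi.neg_apply, Finset.sum_add_distrib, Finset.sum_neg_distrib]
      rw [hr, hsum]
      linarith
  have hvc : ∀ s : ℝ, 0 ≤ s →
      volume ((fun x => x + (-β)) ⁻¹' {c : Fin n → ℝ | (∀ i, 0 ≤ c i) ∧ ∑ i, c i ≤ s}) =
        ENNReal.ofReal (s ^ n / n.factorial) := by
    intro s hs
    rw [measure_preimage_add_right, vol_closed n s hs]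
  rcases le_or_gt r 0 with hr0 | hr0
  · rw [max_eq_left hr0, zero_pow hn, zero_div]
    have h1 : (⋂ i ∈ u, crn K b i) ⊆
        (fun x => x + (-β)) ⁻¹' {c : Fin n → ℝ | (∀ i, 0 ≤ c i) ∧ ∑ i, c i ≤ 0} := fun x hx =>
      ⟨(hsub hx).1, (hsub hx).2.trans hr0⟩
    have h2 := measure_mono (μ := (volume : Measure (Fin n → ℝ))) h1
    rw [hvc 0 le_rfl, zero_pow hn, zero_div, ENNReal.ofReal_zero] at h2
    rw [measureReal_def, le_antisymm h2 bot_le, ENNReal.toReal_zero]
  · rw [max_eq_right hr0.le]
    have hsup : (fun x => x + (-β)) ⁻¹' {c : Fin n → ℝ | (∀ i, 0 < c i) ∧ ∑ i, c i < r} ⊆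
        ⋂ i ∈ u, crn K b i := by
      intro x hx
      simp only [Set.mem_preimage, Set.mem_ofPred_eq, Pi.add_apply, Pi.neg_apply,
        Finset.sum_add_distrib, Finset.sum_neg_distrib] at hx
      obtain ⟨h1, h2⟩ := hx
      rw [hr, hsum] at h2
      have h3 : ∀ l, 0 ≤ x l := fun l => by linarith [h1 l, hβ0 l]
      have h4 : 0 ≤ if none ∈ u then b none else 0 := by
        split_ifs
        · exact hb _
        · exact le_rfl
      have h5 : ∑ l, x l ≤ K := by linarith
      simp only [Set.mem_iInter]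
      intro i hi
      cases i with
      | none =>
        rw [if_pos hi] at h2
        exact ⟨h3, h5, by linarith⟩
      | some m =>
        have h6 := h1 m
        have h7 : β m = b (some m) := if_pos hi
        exact ⟨h3, h5, by linarith⟩
    have h1 := measure_mono (μ := (volume : Measure (Fin n → ℝ))) hsub
    have h2 := measure_mono (μ := (volume : Measure (Fin n → ℝ))) hsup
    rw [hvc r hr0.le] at h1
    rw [measure_preimage_add_right, Pool.Agent.H160R3.Tri.vol_simplex_aux n r hr0] at h2
    rw [measureReal_def, le_antisymm h1 h2, ENNReal.toReal_ofReal (by positivity)]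

/-- **The volume of the simplex with truncated corners.** -/
theorem vol_trc (hn : n ≠ 0) {K : ℝ} (hK : 0 ≤ K) {b : Option (Fin n) → ℝ} (hb : ∀ i, 0 ≤ b i) :
    volume.real (trc K b) * n.factorial =
      ∑ u : Finset (Option (Fin n)), (-1 : ℝ) ^ u.card * max 0 (K - ∑ i ∈ u, b i) ^ n := by
  classical
  have hfac : (n.factorial : ℝ) ≠ 0 := by exact_mod_cast n.factorial_ne_zero
  have hS : volume {x : Fin n → ℝ | (∀ l, 0 ≤ x l) ∧ ∑ l, x l ≤ K} ≠ ⊤ := by
    rw [vol_closed n K hK]
    exact ENNReal.ofReal_ne_top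
  have hfin : ∀ i, volume (crn K b i) ≠ ⊤ := fun i =>
    ne_top_of_le_ne_top hS (measure_mono (crn_subset K b i))
  have heq : trc K b = {x : Fin n → ℝ | (∀ l, 0 ≤ x l) ∧ ∑ l, x l ≤ K} \
      ⋃ i ∈ (Finset.univ : Finset (Option (Fin n))), crn K b i := by
    ext x
    simp only [Finset.mem_univ, Set.iUnion_true, Set.mem_diff, Set.mem_iUnion, not_exists]
    constructor
    · rintro ⟨h1, h2, h3, h4⟩
      refine ⟨⟨h1, h2⟩, fun i hi => ?_⟩
      cases i with
      | none => exact absurd hi.2.2 (not_lt.2 h3)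
      | some m => exact absurd hi.2.2 (not_lt.2 (h4 m))
    · rintro ⟨⟨h1, h2⟩, h3⟩
      refine ⟨h1, h2, ?_, fun l => ?_⟩
      · by_contra h
        exact h3 none ⟨h1, h2, not_le.1 h⟩
      · by_contra h
        exact h3 (some l) ⟨h1, h2, not_le.1 h⟩
  have hU : (⋃ i ∈ (Finset.univ : Finset (Option (Fin n))), crn K b i) ⊆
      {x : Fin n → ℝ | (∀ l, 0 ≤ x l) ∧ ∑ l, x l ≤ K} := by
    simp only [Finset.mem_univ, Set.iUnion_true]
    exact Set.iUnion_subset fun i => crn_subset K b i
  have hUm : MeasurableSet (⋃ i ∈ (Finset.univ : Finset (Option (Fin n))), crn K b i) :=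
    Finset.measurableSet_biUnion _ fun i _ => measurable_crn K b i
  have h1 : volume.real (trc K b) = K ^ n / n.factorial -
      ∑ u ∈ (Finset.univ : Finset (Option (Fin n))).powerset with u.Nonempty,
        (-1 : ℝ) ^ (u.card + 1) * volume.real (⋂ i ∈ u, crn K b i) := by
    rw [heq, measureReal_diff hU hUm hS,
      measureReal_biUnion_eq_sum_powerset (fun i _ => measurable_crn K b i) (fun i _ => hfin i)]
    congr 1
    rw [measureReal_def, vol_closed n K hK, ENNReal.toReal_ofReal (by positivity)]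
  have h2 : ∑ u : Finset (Option (Fin n)), (-1 : ℝ) ^ u.card * max 0 (K - ∑ i ∈ u, b i) ^ n =
      K ^ n + ∑ u ∈ (Finset.univ : Finset (Option (Fin n))).powerset with u.Nonempty,
        (-1 : ℝ) ^ u.card * max 0 (K - ∑ i ∈ u, b i) ^ n := by
    rw [Finset.powerset_univ, ← Finset.sum_filter_add_sum_filter_not Finset.univ
      (fun u : Finset (Option (Fin n)) => u.Nonempty), add_comm]
    congr 1
    have h3 : Finset.filter (fun u : Finset (Option (Fin n)) => ¬ u.Nonempty) Finset.univ = {∅} := by
      ext u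
      simp [Finset.not_nonempty_iff_eq_empty]
    rw [h3, Finset.sum_singleton, Finset.card_empty, Finset.sum_empty, pow_zero, one_mul, sub_zero,
      max_eq_right hK]
  rw [h1, h2, sub_mul, div_mul_cancel₀ _ hfac, sub_eq_add_neg, Finset.sum_mul,
    ← Finset.sum_neg_distrib]
  congr 1
  refine Finset.sum_congr rfl fun u hu => ?_
  rw [vol_crn hn hK hb u (Finset.mem_filter.1 hu).2, pow_succ]
  field_simp

theorem convex_trc (K : ℝ) (b : Option (Fin n) → ℝ) : Convex ℝ (trc K b) := by
  intro x hx y hy s t hs ht hst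
  obtain ⟨x1, x2, x3, x4⟩ := hx
  obtain ⟨y1, y2, y3, y4⟩ := hy
  have hsum : ∑ l, (s • x + t • y) l = s * ∑ l, x l + t * ∑ l, y l := by
    simp only [Pi.add_apply, Pi.smul_apply, smul_eq_mul, Finset.sum_add_distrib, Finset.mul_sum]
  refine ⟨fun l => ?_, ?_, ?_, fun l => ?_⟩
  · simp only [Pi.add_apply, Pi.smul_apply, smul_eq_mul]
    have := x1 l
    have := y1 l
    positivity
  · rw [hsum]
    calc s * ∑ l, x l + t * ∑ l, y l ≤ s * K + t * K :=
          add_le_add (mul_le_mul_of_nonneg_left x2 hs) (mul_le_mul_of_nonneg_left y2 ht)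
      _ = K := by rw [← add_mul, hst, one_mul]
  · rw [hsum]
    calc K - b none = s * (K - b none) + t * (K - b none) := by rw [← add_mul, hst, one_mul]
      _ ≤ _ := add_le_add (mul_le_mul_of_nonneg_left x3 hs) (mul_le_mul_of_nonneg_left y3 ht)
  · simp only [Pi.add_apply, Pi.smul_apply, smul_eq_mul]
    calc s * x l + t * y l ≤ s * b (some l) + t * b (some l) :=
          add_le_add (mul_le_mul_of_nonneg_left (x4 l) hs) (mul_le_mul_of_nonneg_left (y4 l) ht)
      _ = b (some l) := by rw [← add_mul, hst, one_mul]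

theorem compact_trc (K : ℝ) (b : Option (Fin n) → ℝ) : IsCompact (trc K b) := by
  refine Metric.isCompact_of_isClosed_isBounded ?_ ?_
  · have e1 : trc K b = (⋂ l, {x : Fin n → ℝ | 0 ≤ x l}) ∩ {x | ∑ l, x l ≤ K} ∩
        {x | K - b none ≤ ∑ l, x l} ∩ (⋂ l, {x : Fin n → ℝ | x l ≤ b (some l)}) := by
      ext x
      simp [trc, and_assoc]
    rw [e1]
    have h2 : Continuous fun x : Fin n → ℝ => ∑ l, x l :=
      continuous_finset_sum _ fun l _ => continuous_apply l
    refine IsClosed.inter (IsClosed.inter (IsClosed.inter ?_ ?_) ?_) ?_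
    · exact isClosed_iInter fun l => isClosed_le continuous_const (continuous_apply l)
    · exact isClosed_le h2 continuous_const
    · exact isClosed_le continuous_const h2
    · exact isClosed_iInter fun l => isClosed_le (continuous_apply l) continuous_const
  · refine (Metric.isBounded_Icc (0 : Fin n → ℝ) fun l => b (some l)).subset ?_
    intro x hx
    exact ⟨fun l => hx.1 l, fun l => hx.2.2.2 l⟩

end

end Pool.Agent.Y196.Sp
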