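import Mathlib
import Pool.Agent.Y196.Sp.MU
import Pool.Agent.Y196.Sp.Vol

/-!
# Upper bounds for the moving self-intersection number
-/

set_option autoImplicit false

namespace Pool.Agent.Y196.Sp

open MvPolynomial Pool.Agent.TH314.PD MeasureTheory Pointwise
open scoped ENNReal

noncomputable section

variable {n : ℕ}

theorem rs_mul (A B : Set (Fin n →₀ ℕ)) :
    restrictSupport ℂ A * restrictSupport ℂ B ≤ restrictSupport ℂ (A + B) := by
  classical
  rw [Submodule.mul_le]
  intro f hf g hg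
  rw [mem_restrictSupport_iff] at hf hg ⊢
  intro α hα
  obtain ⟨β, hβ, γ, hγ, rfl⟩ := Finset.mem_add.1 (MvPolynomial.support_mul f g hα)
  exact Set.mem_add.2 ⟨β, hf hβ, γ, hg hγ, rfl⟩

theorem rpt_add (a b : Fin n →₀ ℕ) : rpt (a + b) = rpt a + rpt b := by
  funext l
  simp [rpt]

/-- the exponents in a dilate -/
def dil (Q : Set (Fin n → ℝ)) (l : ℕ) : Set (Fin n →₀ ℕ) := {a | rpt a ∈ (l : ℝ) • Q}

theorem pow_le {W : Submodule ℂ (MvPolynomial (Fin n) ℂ)} {Q : Set (Fin n → ℝ)}
    (hQc : Convex ℝ Q) (hne : Q.Nonempty) (hW : W ≤ restrictSupport ℂ {a | rpt a ∈ Q}) (l : ℕ) :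
    W ^ l ≤ restrictSupport ℂ (dil Q l) := by
  classical
  induction l with
  | zero =>
    rw [pow_zero, Submodule.one_le, mem_restrictSupport_iff]
    intro α hα
    have h1 : α = 0 := by
      by_contra h
      rw [Finset.mem_coe, mem_support_iff, coeff_one, if_neg (fun h' => h h'.symm)] at hα
      exact hα rfl
    subst h1
    obtain ⟨q, hq⟩ := hne
    refine Set.mem_smul_set.2 ⟨q, hq, ?_⟩
    funext l
    simp [rpt]
  | succ l ih =>
    rw [pow_succ]
    refine (mul_le_mul' ih hW).trans ((rs_mul _ _).trans ?_)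
    refine restrictSupport_mono ℂ ?_
    intro a ha
    obtain ⟨β, hβ, γ, hγ, rfl⟩ := Set.mem_add.1 ha
    change rpt (β + γ) ∈ (((l + 1 : ℕ) : ℝ)) • Q
    rw [rpt_add, Nat.cast_add, Nat.cast_one, hQc.add_smul (Nat.cast_nonneg l) zero_le_one, one_smul]
    exact Set.add_mem_add hβ hγ

theorem BW_le {W : Submodule ℂ (MvPolynomial (Fin n) ℂ)} {Q : Set (Fin n → ℝ)}
    (hQc : Convex ℝ Q) (hne : Q.Nonempty) (hW : W ≤ restrictSupport ℂ {a | rpt a ∈ Q}) (c l : ℕ) :
    BW W c l ≤ restrictSupport ℂ (lat Q l c) := by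
  have h1 : restrictTotalDegree (Fin n) ℂ c ≤
      restrictSupport ℂ {a | rpt a ∈ Metric.closedBall (0 : Fin n → ℝ) c} := by
    intro f hf
    rw [mem_restrictTotalDegree] at hf
    rw [mem_restrictSupport_iff]
    intro a ha
    change rpt a ∈ Metric.closedBall (0 : Fin n → ℝ) c
    rw [mem_closedBall_zero_iff, pi_norm_le_iff_of_nonneg (Nat.cast_nonneg _)]
    intro i
    have h2 : ‖rpt a i‖ = ((a i : ℕ) : ℝ) := Real.norm_natCast _
    rw [h2]
    have h3 := le_totalDegree ha
    rw [Finsupp.sum_fintype _ _ (fun _ => rfl)] at h3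
    have h4 := Finset.single_le_sum (f := fun l => a l) (fun _ _ => Nat.zero_le _)
      (Finset.mem_univ i)
    have h5 : a i ≤ c := by
      refine h4.trans (le_trans ?_ hf)
      exact h3
    exact_mod_cast h5
  unfold BW
  refine (mul_le_mul' h1 (pow_le hQc hne hW l)).trans ((rs_mul _ _).trans ?_)
  refine restrictSupport_mono ℂ ?_
  intro a ha
  obtain ⟨β, hβ, γ, hγ, rfl⟩ := Set.mem_add.1 ha
  change rpt (β + γ) ∈ (l : ℝ) • Q + Metric.closedBall (0 : Fin n → ℝ) c
  rw [rpt_add, add_comm (rpt β)]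
  exact Set.add_mem_add hγ hβ

/-- **The moving self-intersection number is at most the normalised volume.** -/
theorem mvi_le {W : Submodule ℂ (MvPolynomial (Fin n) ℂ)} {Q : Set (Fin n → ℝ)}
    (hQc : Convex ℝ Q) (hQ : IsCompact Q) (hne : Q.Nonempty)
    (hW : W ≤ restrictSupport ℂ {a | rpt a ∈ Q}) :
    mvi W ≤ n.factorial * volume Q := by
  classical
  refine iSup_le fun c => ?_
  have h1 : ∀ l : ℕ, 1 ≤ l →
      (n.factorial * Module.finrank ℂ (BW W c l) : ℝ≥0∞) / (l : ℝ≥0∞) ^ n ≤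
        n.factorial * volume (Metric.cthickening (((c : ℝ) + 1) / l) Q) := by
    intro l hl
    have hl0 : (0 : ℝ) < l := by exact_mod_cast hl
    have hf := lat_finite hQ hl c
    have : Finite (lat Q l c) := hf
    have : Fintype (lat Q l c) := Fintype.ofFinite _
    have hfd : Module.Finite ℂ (restrictSupport ℂ (lat Q l c)) :=
      Module.Finite.of_basis (basisRestrictSupport ℂ (lat Q l c))
    have h2 : Module.finrank ℂ (BW W c l) ≤ (lat Q l c).ncard := by
      refine (Submodule.finrank_mono (BW_le hQc hne hW c l)).trans ?_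
      rw [Module.finrank_eq_card_basis (basisRestrictSupport ℂ (lat Q l c)),
        ← Nat.card_coe_set_eq, Nat.card_eq_fintype_card]
    have h3 := lat_ncard hQ hl c
    have hfin : volume (Metric.cthickening (((c : ℝ) + 1) / l) Q) ≠ ⊤ :=
      (hQ.isBounded.cthickening).measure_lt_top.ne
    have h4 : (Module.finrank ℂ (BW W c l) : ℝ≥0∞) ≤
        (l : ℝ≥0∞) ^ n * volume (Metric.cthickening (((c : ℝ) + 1) / l) Q) := by
      have h5 : ((Module.finrank ℂ (BW W c l) : ℕ) : ℝ) ≤
          (l : ℝ) ^ n * (volume (Metric.cthickening (((c : ℝ) + 1) / l) Q)).toReal :=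
        le_trans (by exact_mod_cast h2) h3
      have h6 := ENNReal.ofReal_le_ofReal h5
      rw [ENNReal.ofReal_natCast, ENNReal.ofReal_mul (by positivity),
        ENNReal.ofReal_pow (by positivity), ENNReal.ofReal_natCast,
        ENNReal.ofReal_toReal hfin] at h6
      exact h6
    rw [ENNReal.div_le_iff (by positivity) (by finiteness)]
    calc (n.factorial * Module.finrank ℂ (BW W c l) : ℝ≥0∞) ≤
          n.factorial * ((l : ℝ≥0∞) ^ n * volume (Metric.cthickening (((c : ℝ) + 1) / l) Q)) :=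
          mul_le_mul_right h4 _
      _ = _ := by ring
  have h2 : Filter.Tendsto (fun l : ℕ => (n.factorial : ℝ≥0∞) *
      volume (Metric.cthickening (((c : ℝ) + 1) / l) Q)) Filter.atTop
      (nhds (n.factorial * volume Q)) := by
    refine ENNReal.Tendsto.const_mul ?_ (Or.inr (ENNReal.natCast_ne_top _))
    exact (tendsto_measure_cthickening_of_isCompact hQ).comp
      (tendsto_const_div_atTop_nhds_zero_nat _)
  rw [← h2.limsup_eq]
  refine Filter.limsup_le_limsup ?_
  filter_upwards [Filter.eventually_ge_atTop 1] with l hl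
  exact h1 l hl

/-- the homogeneous first derivatives as operators: `k - ∑ t_l ∂_l` and `∂_l` -/
def aJ (n k : ℕ) : Option (Fin n) → MvPolynomial (Fin n) ℂ := fun i => Option.elim i (C (k : ℂ)) 0

/-- the homogeneous first derivatives as operators: `k - ∑ t_l ∂_l` and `∂_l` -/
def bJ (n : ℕ) : Option (Fin n) → Fin n → MvPolynomial (Fin n) ℂ := fun i l =>
  Option.elim i (-X l) fun m => if m = l then 1 else 0

theorem DD_none (k : ℕ) (g : MvPolynomial (Fin n) ℂ) :
    DD (aJ n k) (bJ n) none g = C (k : ℂ) * g - ∑ l, X l * pderiv l g := by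
  unfold DD
  have h1 : ∀ l, bJ n none l * pderiv l g = -(X l * pderiv l g) := fun l => by
    change -X l * pderiv l g = _
    ring
  rw [Finset.sum_congr rfl fun l _ => h1 l, Finset.sum_neg_distrib, sub_eq_add_neg]
  rfl

theorem DD_some (k : ℕ) (m : Fin n) (g : MvPolynomial (Fin n) ℂ) :
    DD (aJ n k) (bJ n) (some m) g = pderiv m g := by
  classical
  unfold DD
  have h1 : ∀ l, bJ n (some m) l * pderiv l g = if m = l then pderiv l g else 0 := fun l => by
    change (if m = l then (1 : MvPolynomial (Fin n) ℂ) else 0) * pderiv l g = _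
    split_ifs
    · rw [one_mul]
    · rw [zero_mul]
  have h2 : aJ n k (some m) = 0 := rfl
  rw [Finset.sum_congr rfl fun l _ => h1 l, Finset.sum_ite_eq, if_pos (Finset.mem_univ _), h2,
    zero_mul, zero_add]

theorem indJ {k : ℕ} (hk : k ≠ 0) : IndD (aJ n k) (bJ n) := by
  classical
  unfold IndD
  intro hdet
  obtain ⟨v, hv0, hv⟩ := Matrix.exists_mulVec_eq_zero_iff.2 hdet
  apply hv0
  have h1 : ∀ i, aJ n k i * v none + ∑ l, bJ n i l * v (some l) = 0 := by
    intro i
    have h2 := congrFun hv i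
    unfold Matrix.mulVec dotProduct at h2
    rw [Fintype.sum_option] at h2
    exact h2
  have h2 : ∀ m, v (some m) = 0 := by
    intro m
    have h3 := h1 (some m)
    have h4 : ∀ l, bJ n (some m) l * v (some l) = if m = l then v (some l) else 0 := fun l => by
      change (if m = l then (1 : MvPolynomial (Fin n) ℂ) else 0) * v (some l) = _
      split_ifs
      · rw [one_mul]
      · rw [zero_mul]
    have h5 : aJ n k (some m) = 0 := rfl
    rw [Finset.sum_congr rfl fun l _ => h4 l, Finset.sum_ite_eq, if_pos (Finset.mem_univ _), h5,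
      zero_mul, zero_add] at h3
    exact h3
  have h3 := h1 none
  rw [Finset.sum_eq_zero fun l _ => by rw [h2 l, mul_zero], add_zero] at h3
  have h4 : aJ n k none = C (k : ℂ) := rfl
  rw [h4] at h3
  have h5 : v none = 0 := by
    refine (mul_eq_zero.1 h3).resolve_left fun h => hk ?_
    rw [C_eq_zero] at h
    exact_mod_cast h
  funext i
  cases i with
  | none => exact h5
  | some m => exact h2 m

/-- the linear system of the first derivatives of the forms of degree `k` given by `G` -/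
def jac {m : ℕ} (k : ℕ) (G : Fin m → MvPolynomial (Fin n) ℂ) :
    Submodule ℂ (MvPolynomial (Fin n) ℂ) :=
  Submodule.span ℂ (Set.range (fun j => C (k : ℂ) * G j - ∑ l, X l * pderiv l (G j)) ∪
    Set.range fun x : Fin m × Fin n => pderiv x.2 (G x.1))

theorem jac_fg {m : ℕ} (k : ℕ) (G : Fin m → MvPolynomial (Fin n) ℂ) : (jac k G).FG :=
  Submodule.fg_span ((Set.finite_range _).union (Set.finite_range _))

/-- **The Jacobian system bound.** -/
theorem jac_bound {d k : ℕ} (hk : k ≠ 0) (hd : 2 ≤ d) (F : MvPolynomial (Fin (n + 2)) ℂ)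
    (hF : F.IsHomogeneous d)
    (hsm : ∀ z : Fin (n + 2) → ℂ, (∀ i, eval z (pderiv i F) = 0) → z = 0)
    (G : Fin (n + 2) → MvPolynomial (Fin n) ℂ) (hFG : aeval G F = 0)
    (hdom : ∀ q (H : MvPolynomial (Fin (n + 2)) ℂ), H.IsHomogeneous q → aeval G H = 0 → F ∣ H) :
    FiniteDimensional (ratioField fun i =>
        algebraMap (MvPolynomial (Fin n) ℂ) (FractionRing (MvPolynomial (Fin n) ℂ)) (G i))
        (FractionRing (MvPolynomial (Fin n) ℂ)) ∧
      (Module.finrank (ratioField fun i =>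
        algebraMap (MvPolynomial (Fin n) ℂ) (FractionRing (MvPolynomial (Fin n) ℂ)) (G i))
        (FractionRing (MvPolynomial (Fin n) ℂ)) : ℝ≥0∞) * (d * (d - 1) ^ n : ℕ) ≤
        (n + 1) * mvi (jac k G) := by
  refine bound_mi hd F hF hsm (indJ hk) (jac k G) (jac_fg k G) G (fun j i => ?_) hFG hdom
  cases i with
  | none =>
    rw [DD_none]
    exact Submodule.subset_span (Or.inl ⟨j, rfl⟩)
  | some m =>
    rw [DD_some]
    exact Submodule.subset_span (Or.inr ⟨(j, m), rfl⟩)

theorem mvi_bot : mvi (⊥ : Submodule ℂ (MvPolynomial (Fin n) ℂ)) = 0 := by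
  refine le_antisymm (iSup_le fun c => ?_) bot_le
  have h1 : Filter.Tendsto (fun l : ℕ => (n.factorial * Module.finrank ℂ
      (BW (⊥ : Submodule ℂ (MvPolynomial (Fin n) ℂ)) c l) : ℝ≥0∞) / (l : ℝ≥0∞) ^ n)
      Filter.atTop (nhds 0) := by
    refine tendsto_const_nhds.congr' ?_
    filter_upwards [Filter.eventually_ge_atTop 1] with l hl
    obtain ⟨m, rfl⟩ : ∃ m, l = m + 1 := ⟨l - 1, by omega⟩
    have h2 : BW (⊥ : Submodule ℂ (MvPolynomial (Fin n) ℂ)) c (m + 1) = ⊥ := by
      unfold BW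
      rw [pow_succ, Submodule.mul_bot, Submodule.mul_bot]
    rw [h2, finrank_bot, Nat.cast_zero, mul_zero, ENNReal.zero_div]
  rw [h1.limsup_eq]

/-- **The moving self-intersection number is at most the normalised volume.** -/
theorem mvi_le' {W : Submodule ℂ (MvPolynomial (Fin n) ℂ)} {Q : Set (Fin n → ℝ)}
    (hQc : Convex ℝ Q) (hQ : IsCompact Q)
    (hW : W ≤ restrictSupport ℂ {a | rpt a ∈ Q}) :
    mvi W ≤ n.factorial * volume Q := by
  rcases Q.eq_empty_or_nonempty with rfl | hne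
  · have h1 : W = ⊥ := by
      rw [eq_bot_iff]
      intro f hf
      have h2 := (mem_restrictSupport_iff ℂ).1 (hW hf)
      rw [Submodule.mem_bot]
      by_contra h0
      obtain ⟨a, ha⟩ := MvPolynomial.ne_zero_iff.1 h0
      exact h2 (Finset.mem_coe.2 (mem_support_iff.2 ha))
    rw [h1, mvi_bot]
    exact bot_le
  · exact mvi_le hQc hQ hne hW

/-- the alternating sum -/
def altS (n K : ℕ) (e : Option (Fin n) → ℕ) : ℤ :=
  ∑ u : Finset (Option (Fin n)), (-1) ^ u.card * ((K - ∑ i ∈ u, e i : ℕ) : ℤ) ^ n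

theorem altS_cast (hn : n ≠ 0) (K : ℕ) (e : Option (Fin n) → ℕ) :
    volume.real (trc (K : ℝ) fun i => (e i : ℝ)) * n.factorial = (altS n K e : ℝ) := by
  rw [vol_trc hn (Nat.cast_nonneg K) fun i => Nat.cast_nonneg (e i)]
  unfold altS
  push_cast
  refine Finset.sum_congr rfl fun u _ => ?_
  congr 2
  rw [← Nat.cast_sum]
  rcases le_total K (∑ i ∈ u, e i) with h | h
  · rw [Nat.sub_eq_zero_of_le h, Nat.cast_zero, max_eq_left]
    have : (K : ℝ) ≤ ((∑ i ∈ u, e i : ℕ) : ℝ) := by exact_mod_cast h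
    linarith
  · rw [Nat.cast_sub h, max_eq_right]
    have : ((∑ i ∈ u, e i : ℕ) : ℝ) ≤ (K : ℝ) := by exact_mod_cast h
    linarith

/-- the exponents of the derivatives -/
theorem jac_le {m : ℕ} {k : ℕ} (hk : k ≠ 0) (e : Option (Fin n) → ℕ)
    (G : Fin m → MvPolynomial (Fin n) ℂ)
    (hG : ∀ j, ∀ a ∈ (G j).support, ∑ l, a l ≤ k ∧ k ≤ ∑ l, a l + e none ∧ ∀ l, a l ≤ e (some l)) :
    jac k G ≤ restrictSupport ℂ {a | rpt a ∈ trc ((k - 1 : ℕ) : ℝ) fun i => (e i : ℝ)} := by
  classical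
  have key : ∀ a : Fin n →₀ ℕ, ∑ l, a l ≤ k - 1 → k - 1 ≤ ∑ l, a l + e none →
      (∀ l, a l ≤ e (some l)) → rpt a ∈ trc ((k - 1 : ℕ) : ℝ) fun i => (e i : ℝ) := by
    intro a h1 h2 h3
    have hs : ∑ l, rpt a l = ((∑ l, a l : ℕ) : ℝ) := by
      rw [Nat.cast_sum]
      rfl
    refine ⟨fun l => Nat.cast_nonneg _, ?_, ?_, fun l => ?_⟩
    · rw [hs]
      exact_mod_cast h1
    · rw [hs, sub_le_iff_le_add]
      change ((k - 1 : ℕ) : ℝ) ≤ ((∑ l, a l : ℕ) : ℝ) + ((e none : ℕ) : ℝ)
      exact_mod_cast h2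
    · exact Nat.cast_le.2 (h3 l)
  unfold jac
  rw [Submodule.span_le]
  rintro f (⟨j, rfl⟩ | ⟨⟨j, m⟩, rfl⟩)
  · rw [SetLike.mem_coe, mem_restrictSupport_iff]
    intro a ha
    have h1 : coeff a (C (k : ℂ) * G j - ∑ l, X l * pderiv l (G j)) =
        ((k : ℂ) - ((∑ l, a l : ℕ) : ℂ)) * coeff a (G j) := by
      rw [coeff_sub, coeff_C_mul, coeff_sum,
        Finset.sum_congr rfl fun l _ => Pool.Agent.TH920.MC.coeff_X_pderiv (G j) l a,
        ← Finset.sum_mul, Nat.cast_sum]
      ring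
    rw [Finset.mem_coe, mem_support_iff, h1] at ha
    have h2 := hG j a (mem_support_iff.2 (right_ne_zero_of_mul ha))
    have h3 := left_ne_zero_of_mul ha
    have h5 : ∑ l, a l ≠ k := by
      intro h
      rw [h, sub_self] at h3
      exact h3 rfl
    exact key a (by omega) (by omega) h2.2.2
  · rw [SetLike.mem_coe, mem_restrictSupport_iff]
    intro a ha
    simp only at ha
    rw [Finset.mem_coe, mem_support_iff, coeff_pderiv] at ha
    have h1 : a + Finsupp.single m 1 ∈ (G j).support := by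
      rw [mem_support_iff]
      intro h
      rw [h, zero_mul] at ha
      exact ha rfl
    obtain ⟨h2, h3, h4⟩ := hG j _ h1
    simp only [Finsupp.add_apply, Finset.sum_add_distrib] at h2 h3 h4
    have h5 : ∑ x, (Finsupp.single m 1 : Fin n →₀ ℕ) x = 1 := by
      rw [Finset.sum_eq_single m]
      · exact Finsupp.single_eq_same
      · intro b _ hb
        exact Finsupp.single_eq_of_ne hb
      · intro h
        exact absurd (Finset.mem_univ _) h
    rw [h5] at h2 h3
    exact key a (by omega) (by omega) fun l => by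
      have := h4 l
      omega

/-- **Multiplicities at the coordinate points.** -/
theorem mult_bound {d k : ℕ} (hn : n ≠ 0) (hk : k ≠ 0) (hd : 2 ≤ d)
    (F : MvPolynomial (Fin (n + 2)) ℂ) (hF : F.IsHomogeneous d)
    (hsm : ∀ z : Fin (n + 2) → ℂ, (∀ i, eval z (pderiv i F) = 0) → z = 0)
    (G : Fin (n + 2) → MvPolynomial (Fin n) ℂ) (hFG : aeval G F = 0)
    (hdom : ∀ q (H : MvPolynomial (Fin (n + 2)) ℂ), H.IsHomogeneous q → aeval G H = 0 → F ∣ H)
    (e : Option (Fin n) → ℕ)
    (hG : ∀ j, ∀ a ∈ (G j).support, ∑ l, a l ≤ k ∧ k ≤ ∑ l, a l + e none ∧ ∀ l, a l ≤ e (some l)) :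
      (Module.finrank (ratioField fun i =>
        algebraMap (MvPolynomial (Fin n) ℂ) (FractionRing (MvPolynomial (Fin n) ℂ)) (G i))
        (FractionRing (MvPolynomial (Fin n) ℂ)) : ℤ) * (d * (d - 1) ^ n : ℕ) ≤
        (n + 1) * altS n (k - 1) e := by
  obtain ⟨-, h1⟩ := jac_bound hk hd F hF hsm G hFG hdom
  have h2 := mvi_le' (convex_trc _ _) (compact_trc _ _) (jac_le hk e G hG)
  have hfin : volume (trc ((k - 1 : ℕ) : ℝ) fun i => (e i : ℝ)) ≠ ⊤ :=
    (compact_trc _ _).measure_lt_top.ne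
  have h3 := h1.trans (mul_le_mul_right h2 _)
  have h4 := ENNReal.toReal_mono (by finiteness) h3
  rw [ENNReal.toReal_mul, ENNReal.toReal_mul, ENNReal.toReal_mul, ENNReal.toReal_natCast,
    ENNReal.toReal_natCast, ENNReal.toReal_natCast, ENNReal.toReal_add (by finiteness)
    (by finiteness), ENNReal.toReal_natCast, ENNReal.toReal_one, mul_comm (n.factorial : ℝ)] at h4
  have h5 := altS_cast hn (k - 1) e
  rw [measureReal_def] at h5
  rw [h5] at h4
  exact_mod_cast h4

end

end Pool.Agent.Y196.Sp
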