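import Mathlib
import Pool.Agent.Y196.Sp.MV

/-!
# The bound with multiplicities, indexed by the homogeneous coordinates
-/

set_option autoImplicit false

namespace Pool.Agent.Y196.Sp

open MvPolynomial Pool.Agent.TH314.PD MeasureTheory
open scoped ENNReal

noncomputable section

variable {n : ℕ}

/-- the alternating sum, indexed by homogeneous coordinates -/
def altF (n K : ℕ) (e : Fin (n + 1) → ℕ) : ℤ :=
  ∑ u : Finset (Fin (n + 1)), (-1) ^ u.card * ((K - ∑ i ∈ u, e i : ℕ) : ℤ) ^ n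

theorem altF_eq (K : ℕ) (e : Fin (n + 1) → ℕ) :
    altF n K e = altS n K fun i => e ((finSuccEquiv n).symm i) := by
  classical
  unfold altF altS
  refine Fintype.sum_equiv (Equiv.finsetCongr (finSuccEquiv n)) _ _ fun u => ?_
  rw [Equiv.finsetCongr_apply, Finset.card_map, Finset.sum_map]
  congr 4
  refine Finset.sum_congr rfl fun i _ => ?_
  rw [Equiv.coe_toEmbedding, Equiv.symm_apply_apply]

/-- disjoint corners -/
theorem altF_disjoint (hn : n ≠ 0) {K : ℕ} {e : Fin (n + 1) → ℕ}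
    (h : ∀ i j, i ≠ j → K ≤ e i + e j) :
    altF n K e = (K : ℤ) ^ n - ∑ i, ((K - e i : ℕ) : ℤ) ^ n := by
  classical
  unfold altF
  have h1 : ∑ u : Finset (Fin (n + 1)), (-1 : ℤ) ^ u.card * ((K - ∑ i ∈ u, e i : ℕ) : ℤ) ^ n =
      ∑ u ∈ insert ∅ (Finset.univ.image fun i : Fin (n + 1) => ({i} : Finset (Fin (n + 1)))),
        (-1 : ℤ) ^ u.card * ((K - ∑ i ∈ u, e i : ℕ) : ℤ) ^ n := by
    symm
    refine Finset.sum_subset (Finset.subset_univ _) fun u _ hu => ?_
    rw [Finset.mem_insert, Finset.mem_image, not_or] at hu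
    obtain ⟨hu1, hu2⟩ := hu
    obtain ⟨i, hi⟩ := Finset.nonempty_iff_ne_empty.2 hu1
    obtain ⟨j, hj, hij⟩ : ∃ j ∈ u, j ≠ i := by
      by_contra hcon
      push Not at hcon
      exact hu2 ⟨i, Finset.mem_univ _, (Finset.eq_singleton_iff_unique_mem.2 ⟨hi, hcon⟩).symm⟩
    have h2 : e j + e i ≤ ∑ l ∈ u, e l := by
      rw [← Finset.sum_pair hij]
      exact Finset.sum_le_sum_of_subset (by
        intro x hx
        rw [Finset.mem_insert, Finset.mem_singleton] at hx
        rcases hx with rfl | rfl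
        · exact hj
        · exact hi)
    rw [Nat.sub_eq_zero_of_le ((h j i hij).trans h2), Nat.cast_zero, zero_pow hn, mul_zero]
  rw [h1, Finset.sum_insert (by
    rw [Finset.mem_image]
    rintro ⟨i, _, hi⟩
    exact Finset.singleton_ne_empty i hi), Finset.sum_image fun i _ j _ hij =>
      Finset.singleton_injective hij]
  rw [Finset.card_empty, pow_zero, one_mul, Finset.sum_empty, Nat.sub_zero, sub_eq_add_neg,
    ← Finset.sum_neg_distrib]
  congr 1
  refine Finset.sum_congr rfl fun i _ => ?_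
  rw [Finset.card_singleton, pow_one, Finset.sum_singleton, neg_one_mul]

/-- the linear system of derivatives has self-intersection number at most `(k - 1) ^ n` -/
theorem mvi_jac_le (hn : n ≠ 0) {m k : ℕ} (hk : k ≠ 0) (G : Fin m → MvPolynomial (Fin n) ℂ)
    (hG : ∀ j, (G j).totalDegree ≤ k) : mvi (jac k G) ≤ ((k - 1 : ℕ) : ℝ≥0∞) ^ n := by
  have h1 := mvi_le' (convex_trc _ _) (compact_trc _ _) (jac_le hk (fun _ => k) G (by
    intro j a ha
    have h2 := (le_totalDegree ha).trans (hG j)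
    rw [Finsupp.sum_fintype _ _ (fun _ => rfl)] at h2
    refine ⟨h2, by omega, fun l => ?_⟩
    exact (Finset.single_le_sum (f := fun l => a l) (fun _ _ => Nat.zero_le _)
      (Finset.mem_univ l)).trans h2))
  refine h1.trans ?_
  have hfin : volume (trc ((k - 1 : ℕ) : ℝ) fun _ : Option (Fin n) => ((k : ℕ) : ℝ)) ≠ ⊤ :=
    (compact_trc _ _).measure_lt_top.ne
  have h2 := altS_cast hn (k - 1) fun _ : Option (Fin n) => k
  have h3 : altS n (k - 1) (fun _ : Option (Fin n) => k) = ((k - 1 : ℕ) : ℤ) ^ n := by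
    have h4 := altF_eq (n := n) (k - 1) fun _ => k
    rw [← h4, altF_disjoint hn (by intro i j _; omega), Finset.sum_eq_zero, sub_zero]
    intro i _
    rw [Nat.sub_eq_zero_of_le (by omega), Nat.cast_zero, zero_pow hn]
  rw [h3, measureReal_def] at h2
  have h5 : (n.factorial : ℝ≥0∞) * volume (trc ((k - 1 : ℕ) : ℝ) fun _ : Option (Fin n) =>
      ((k : ℕ) : ℝ)) = ENNReal.ofReal ((((k - 1 : ℕ) : ℝ)) ^ n) := by
    have h6 : ENNReal.ofReal ((volume (trc ((k - 1 : ℕ) : ℝ) fun _ : Option (Fin n) =>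
        ((k : ℕ) : ℝ))).toReal * n.factorial) = ENNReal.ofReal ((((k - 1 : ℕ) : ℝ)) ^ n) := by
      rw [h2]
      congr 1
      push_cast
      ring
    rw [← h6, ENNReal.ofReal_mul ENNReal.toReal_nonneg, ENNReal.ofReal_toReal hfin,
      ENNReal.ofReal_natCast, mul_comm]
  rw [h5, ENNReal.ofReal_pow (by positivity), ENNReal.ofReal_natCast]

/-- **Multiplicities at the coordinate points.** -/
theorem mult_fin {d k : ℕ} (hn : n ≠ 0) (hk : k ≠ 0) (hd : 2 ≤ d)
    (F : MvPolynomial (Fin (n + 2)) ℂ) (hF : F.IsHomogeneous d)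
    (hsm : ∀ z : Fin (n + 2) → ℂ, (∀ i, eval z (pderiv i F) = 0) → z = 0)
    (G : Fin (n + 2) → MvPolynomial (Fin n) ℂ) (hFG : aeval G F = 0)
    (hdom : ∀ q (H : MvPolynomial (Fin (n + 2)) ℂ), H.IsHomogeneous q → aeval G H = 0 → F ∣ H)
    (m : Fin (n + 1) → ℕ) (hm : ∀ i, m i ≤ k)
    (hG : ∀ j, ∀ a ∈ (G j).support, ∑ l, a l ≤ k ∧ m 0 ≤ ∑ l, a l ∧ ∀ l : Fin n, a l + m l.succ ≤ k) :
      (Module.finrank (ratioField fun i =>
        algebraMap (MvPolynomial (Fin n) ℂ) (FractionRing (MvPolynomial (Fin n) ℂ)) (G i))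
        (FractionRing (MvPolynomial (Fin n) ℂ)) : ℤ) * (d * (d - 1) ^ n : ℕ) ≤
        (n + 1) * altF n (k - 1) fun i => k - m i := by
  rw [altF_eq]
  refine mult_bound hn hk hd F hF hsm G hFG hdom _ ?_
  intro j a ha
  obtain ⟨h1, h2, h3⟩ := hG j a ha
  refine ⟨h1, ?_, fun l => ?_⟩
  · rw [finSuccEquiv_symm_none]
    have := hm 0
    omega
  · rw [finSuccEquiv_symm_some]
    have := h3 l
    omega

end

end Pool.Agent.Y196.Sp
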