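import Mathlib
import Pool.Agent.Y196.Sp.Fi

/-!
# The Newton polytope bound
-/

set_option autoImplicit false

namespace Pool.Agent.Y196.Sp

open MvPolynomial Pool.Agent.TH314.PD

noncomputable section

variable {n N d : ℕ}

/-- the affine functions `1, a_1, …, a_n` -/
def w0 : Option (Fin n) → ℂ := fun i => Option.elim i 1 fun _ => 0

/-- the affine functions `1, a_1, …, a_n` -/
def c0 : Option (Fin n) → Fin n → ℂ := fun i l => Option.elim i 0 fun m => if m = l then 1 else 0

theorem ind0 : Ind (w0 (n := n)) c0 := by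
  classical
  unfold Ind
  have h1 : (Matrix.of fun i j => Option.elim j (w0 i) (c0 i) :
      Matrix (Option (Fin n)) (Option (Fin n)) ℂ) = 1 := by
    ext i j
    rw [Matrix.of_apply, Matrix.one_apply]
    cases i with
    | none => cases j with
      | none => simp [w0]
      | some m => simp [c0]
    | some l => cases j with
      | none => simp [w0]
      | some m => simp [c0]
  rw [h1, Matrix.det_one]
  exact one_ne_zero

/-- the polytope of a finite set of exponents, projected to some coordinates -/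
def npoly (A : Finset (Fin N →₀ ℕ)) (g : Fin n → Fin N) : Set (Fin n → ℝ) :=
  convexHull ℝ ((fun (a : Fin N →₀ ℕ) (s : Fin n) => (a (g s) : ℝ)) '' (A : Set (Fin N →₀ ℕ)))

theorem npoly_compact (A : Finset (Fin N →₀ ℕ)) (g : Fin n → Fin N) : IsCompact (npoly A g) :=
  (A.finite_toSet.image _).isCompact_convexHull (𝕜 := ℝ)

/-- **The Newton polytope bound**, `n` parameters. -/
theorem newt_bound (hd : 2 ≤ d) (F : MvPolynomial (Fin (n + 2)) ℂ) (hF : F.IsHomogeneous d)
    (hsm : ∀ z : Fin (n + 2) → ℂ, (∀ i, eval z (pderiv i F) = 0) → z = 0)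
    (B : Set (Fin n →₀ ℕ)) {P : Set (Fin n → ℝ)} (hPc : Convex ℝ P) (hP : IsCompact P)
    (hB : ∀ a ∈ B, (fun l => (a l : ℝ)) ∈ P)
    (G : Fin (n + 2) → MvPolynomial (Fin n) ℂ) (hG : ∀ i, ∀ a ∈ (G i).support, a ∈ B)
    (hFG : aeval G F = 0)
    (hdom : ∀ q (H : MvPolynomial (Fin (n + 2)) ℂ), H.IsHomogeneous q → aeval G H = 0 → F ∣ H) :
    FiniteDimensional (ratioField fun i =>
        algebraMap (MvPolynomial (Fin n) ℂ) (FractionRing (MvPolynomial (Fin n) ℂ)) (G i))
        (FractionRing (MvPolynomial (Fin n) ℂ)) ∧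
      (Module.finrank (ratioField fun i =>
        algebraMap (MvPolynomial (Fin n) ℂ) (FractionRing (MvPolynomial (Fin n) ℂ)) (G i))
        (FractionRing (MvPolynomial (Fin n) ℂ)) : ℝ) * (d * (d - 1) ^ n : ℕ) ≤
        (n + 1).factorial * (MeasureTheory.volume P).toReal :=
  bound_sp hd F hF hsm w0 c0 (fun _ => 0) ind0 hPc hP B
    (fun i a ha _ => by rw [add_zero]; exact hB a ha) G (fun i a ha => hG i a ha) hFG hdom

/-- **The Newton polytope bound**, any number of parameters. -/
theorem newt_param (hd : 2 ≤ d) (F : MvPolynomial (Fin (n + 2)) ℂ) (hF : F.IsHomogeneous d)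
    (hsm : ∀ z : Fin (n + 2) → ℂ, (∀ i, eval z (pderiv i F) = 0) → z = 0)
    (G : Fin (n + 2) → MvPolynomial (Fin N) ℂ)
    (hFG : aeval G F = 0)
    (hdom : ∀ q (H : MvPolynomial (Fin (n + 2)) ℂ), H.IsHomogeneous q → aeval G H = 0 → F ∣ H) :
    ∃ (c : Fin N → ℂ) (g : Fin n → Fin N), Function.Injective g ∧ (∀ s, c (g s) = 0) ∧
      aeval (fun i => aeval (spc c g) (G i)) F = 0 ∧
      (∀ q (H : MvPolynomial (Fin (n + 2)) ℂ), H.IsHomogeneous q →
        aeval (fun i => aeval (spc c g) (G i)) H = 0 → F ∣ H) ∧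
      FiniteDimensional (ratioField fun i =>
        algebraMap (MvPolynomial (Fin n) ℂ) (FractionRing (MvPolynomial (Fin n) ℂ))
          (aeval (spc c g) (G i))) (FractionRing (MvPolynomial (Fin n) ℂ)) ∧
      ∀ {P : Set (Fin n → ℝ)}, Convex ℝ P → IsCompact P →
        (∀ i, ∀ a ∈ (G i).support, (fun s => (a (g s) : ℝ)) ∈ P) →
        (Module.finrank (ratioField fun i =>
          algebraMap (MvPolynomial (Fin n) ℂ) (FractionRing (MvPolynomial (Fin n) ℂ))
            (aeval (spc c g) (G i))) (FractionRing (MvPolynomial (Fin n) ℂ)) : ℝ) *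
            (d * (d - 1) ^ n : ℕ) ≤ (n + 1).factorial * (MeasureTheory.volume P).toReal := by
  classical
  obtain ⟨c, g, hg, hc, h1, h2⟩ := spc_exists hd F hF hsm G hFG hdom
  have key : ∀ {P : Set (Fin n → ℝ)}, Convex ℝ P → IsCompact P →
        (∀ i, ∀ a ∈ (G i).support, (fun s => (a (g s) : ℝ)) ∈ P) → _ := fun {P} hPc hP h =>
    newt_bound hd F hF hsm {b | (fun l => (b l : ℝ)) ∈ P} hPc hP (fun a ha => ha)
      (fun i => aeval (spc c g) (G i)) (fun i b hb => by
        obtain ⟨a, ha, rfl⟩ := supp_spc hg hc (G i) hb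
        exact h i a ha) h1 h2
  have hex : ∀ i, ∀ a ∈ (G i).support, (fun s => (a (g s) : ℝ)) ∈
      npoly (Finset.univ.biUnion fun i => (G i).support) g := by
    intro i a ha
    refine subset_convexHull ℝ _ ⟨a, ?_, rfl⟩
    rw [Finset.mem_coe, Finset.mem_biUnion]
    exact ⟨i, Finset.mem_univ _, ha⟩
  exact ⟨c, g, hg, hc, h1, h2, (key (convex_convexHull ℝ _) (npoly_compact _ g) hex).1,
    fun {P} hPc hP h => (key hPc hP h).2⟩

/-- volume of a box -/
theorem vol_box (k : Fin n → ℕ) : (MeasureTheory.volume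
    (Set.Icc (0 : Fin n → ℝ) fun l => (k l : ℝ))).toReal = ∏ l, (k l : ℝ) := by
  rw [Real.volume_Icc_pi]
  simp only [Pi.zero_apply, sub_zero]
  rw [ENNReal.toReal_prod]
  exact Finset.prod_congr rfl fun l _ => ENNReal.toReal_ofReal (Nat.cast_nonneg _)

end

end Pool.Agent.Y196.Sp
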